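import Pool.Agent.Lib.MP_8f7fef_co.Flip

set_option autoImplicit false
set_option linter.unusedSectionVars false

namespace Pool.Agent.Lib.MP_8f7fef_co

section Reindex
variable {ι ι' : Type*}

theorem U_reindex (e : ι ≃ ι') (f : (ι → Bool) → Bool) (b : Bool) (z : ι' → ℝ) :
    z ∈ U (fun x' : ι' → Bool => f (fun i => x' (e i))) b ↔ (fun i => z (e i)) ∈ U f b := by
  constructor
  · rintro ⟨x', hx', hz⟩
    exact ⟨fun i => x' (e i), hx', fun i => hz (e i)⟩
  · rintro ⟨x, hx, hz⟩
    refine ⟨fun j => x (e.symm j), ?_, fun j => ?_⟩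
    · simp only [Equiv.symm_apply_apply]; exact hx
    · have := hz (e.symm j)
      simpa using this

/-- goodness is invariant under renaming of coordinates -/
theorem Good.reindex {f : (ι → Bool) → Bool} (hf : Good f) (e : ι ≃ ι') :
    Good (fun x' : ι' → Bool => f (fun i => x' (e i))) := by
  obtain ⟨Ψ, i0, hh, hU⟩ := hf
  let R : (ι' → ℝ) ≃ₜ (ι → ℝ) :=
    { toFun := fun z i => z (e i)
      invFun := fun z j => z (e.symm j)
      left_inv := fun z => by funext j; simp
      right_inv := fun z => by funext j; simp
      continuous_toFun := by fun_prop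
      continuous_invFun := by fun_prop }
  refine ⟨(R.trans Ψ).trans R.symm, e i0, ?_, ?_⟩
  · intro t ht z
    show (fun j => Ψ (fun i => (t • z) (e i)) (e.symm j)) = t • (fun j => Ψ (fun i => z (e i)) (e.symm j))
    have h1 : (fun i => (t • z) (e i)) = t • (fun i => z (e i)) := by
      funext i; rfl
    rw [h1, hh t ht]
    rfl
  · intro z
    rw [U_reindex, U_reindex]
    have h1 : ((R.trans Ψ).trans R.symm) z (e i0) = Ψ (fun i => z (e i)) i0 := by
      show Ψ (fun i => z (e i)) (e.symm (e i0)) = _
      rw [Equiv.symm_apply_apply]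
    rw [h1]
    exact hU _

end Reindex

section Comp
variable {κ Λ : Type*} [DecidableEq Λ]

/-- composition `g (h, ..., h)` -/
def compo (g : (κ → Bool) → Bool) (h : (Λ → Bool) → Bool) : (κ × Λ → Bool) → Bool :=
  fun x => g (fun i => h (fun k => x (i, k)))

/-- the straightening homeomorphism of a composition -/
noncomputable def compHomeo (Ψg : (κ → ℝ) ≃ₜ (κ → ℝ)) (Ψh : (Λ → ℝ) ≃ₜ (Λ → ℝ)) (k0 : Λ) :
    (κ × Λ → ℝ) ≃ₜ (κ × Λ → ℝ) where
  toFun z := fun p => if p.2 = k0 then Ψg (fun i => Ψh (fun k => z (i, k)) k0) p.1
    else Ψh (fun k => z (p.1, k)) p.2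
  invFun w := fun p => Ψh.symm (fun k => if k = k0 then Ψg.symm (fun i => w (i, k0)) p.1 else w (p.1, k)) p.2
  left_inv z := by
    funext ⟨i, k⟩
    have h1 : (fun i : κ => (if k0 = k0 then Ψg (fun i => Ψh (fun k => z (i, k)) k0) i
        else Ψh (fun k => z (i, k)) k0)) = Ψg (fun i => Ψh (fun k => z (i, k)) k0) := by
      funext i; simp
    have h2 : (fun k' : Λ => if k' = k0 then Ψg.symm (fun i : κ => (if k0 = k0 then Ψg (fun i => Ψh (fun k => z (i, k)) k0) i
        else Ψh (fun k => z (i, k)) k0)) i else
          (if k' = k0 then Ψg (fun i => Ψh (fun k => z (i, k)) k0) i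
            else Ψh (fun k => z (i, k)) k')) = Ψh (fun k => z (i, k)) := by
      funext k'
      rw [h1, Homeomorph.symm_apply_apply]
      by_cases hk : k' = k0
      · subst hk; simp
      · simp [hk]
    show Ψh.symm (fun k' : Λ => if k' = k0 then Ψg.symm (fun i : κ => (if k0 = k0 then Ψg (fun i => Ψh (fun k => z (i, k)) k0) i
        else Ψh (fun k => z (i, k)) k0)) i else
          (if k' = k0 then Ψg (fun i => Ψh (fun k => z (i, k)) k0) i
            else Ψh (fun k => z (i, k)) k')) k = z (i, k)
    rw [h2, Homeomorph.symm_apply_apply]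
  right_inv w := by
    funext ⟨i, k⟩
    have h1 : ∀ i : κ, (Ψh (fun k => Ψh.symm (fun k' => if k' = k0 then Ψg.symm (fun i => w (i, k0)) i else w (i, k')) k)) =
        fun k' => if k' = k0 then Ψg.symm (fun i => w (i, k0)) i else w (i, k') := by
      intro i
      exact Ψh.apply_symm_apply _
    show (if k = k0 then Ψg (fun i => Ψh (fun k => Ψh.symm (fun k' => if k' = k0 then Ψg.symm (fun i => w (i, k0)) i else w (i, k')) k) k0) i
      else Ψh (fun k => Ψh.symm (fun k' => if k' = k0 then Ψg.symm (fun i => w (i, k0)) i else w (i, k')) k) k) = w (i, k)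
    simp only [h1]
    by_cases hk : k = k0
    · subst hk
      simp
    · simp [hk]
  continuous_toFun := by
    apply continuous_pi
    rintro ⟨i, k⟩
    have h1 : ∀ i : κ, Continuous (fun z : κ × Λ → ℝ => Ψh (fun k => z (i, k))) := by
      intro i
      apply Ψh.continuous.comp
      fun_prop
    by_cases hk : k = k0
    · simp only [hk, if_true]
      have h2 : Continuous (fun z : κ × Λ → ℝ => (fun i => Ψh (fun k => z (i, k)) k0)) := by
        apply continuous_pi
        intro i
        exact (continuous_apply k0).comp (h1 i)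
      exact (continuous_apply i).comp (Ψg.continuous.comp h2)
    · simp only [hk, if_false]
      exact (continuous_apply k).comp (h1 i)
  continuous_invFun := by
    apply continuous_pi
    rintro ⟨i, k⟩
    have h2 : Continuous (fun w : κ × Λ → ℝ => Ψg.symm (fun i => w (i, k0))) := by
      apply Ψg.symm.continuous.comp
      fun_prop
    have h3 : Continuous (fun w : κ × Λ → ℝ => fun k => if k = k0 then Ψg.symm (fun i => w (i, k0)) i else w (i, k)) := by
      apply continuous_pi
      intro k
      by_cases hk : k = k0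
      · simp only [hk, if_true]
        exact (continuous_apply i).comp h2
      · simp only [hk, if_false]
        fun_prop
    exact (continuous_apply k).comp (Ψh.symm.continuous.comp h3)

/-- goodness is preserved by composition -/
theorem Good.comp {g : (κ → Bool) → Bool} {h : (Λ → Bool) → Bool} (hg : Good g) (hh : Good h) :
    Good (compo g h) := by
  obtain ⟨Ψg, i0, hg1, hg2⟩ := hg
  obtain ⟨Ψh, k0, hh1, hh2⟩ := hh
  have key : ∀ (z : κ × Λ → ℝ) (b : Bool), z ∈ U (compo g h) b ↔
      (fun i => Ψh (fun k => z (i, k)) k0) ∈ U g b := by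
    intro z b
    constructor
    · rintro ⟨x, hx, hz⟩
      refine ⟨fun i => h (fun k => x (i, k)), hx, fun i => ?_⟩
      have h1 : (fun k => z (i, k)) ∈ orth (fun k => x (i, k)) := fun k => hz (i, k)
      cases hb : h (fun k => x (i, k))
      · have h2 := ((hh2 (fun k => z (i, k))).2).mp ⟨_, hb, h1⟩
        simp only [hb, sg]
        simp only [Bool.false_eq_true, if_false]
        linarith
      · have h2 := ((hh2 (fun k => z (i, k))).1).mp ⟨_, hb, h1⟩
        simp only [hb, sg]
        simp only [if_true]
        linarith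
    · rintro ⟨y, hy, hz⟩
      have h1 : ∀ i, ∃ x : Λ → Bool, h x = y i ∧ (fun k => z (i, k)) ∈ orth x := by
        intro i
        have h2 := hz i
        cases hb : y i
        · rw [hb] at h2
          simp only [sg, Bool.false_eq_true, if_false] at h2
          exact ((hh2 (fun k => z (i, k))).2).mpr (by linarith)
        · rw [hb] at h2
          simp only [sg, if_true] at h2
          exact ((hh2 (fun k => z (i, k))).1).mpr (by linarith)
      choose x hx hxz using h1
      refine ⟨fun p => x p.1 p.2, ?_, fun p => hxz p.1 p.2⟩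
      show g (fun i => h (fun k => x i k)) = b
      have : (fun i => h (fun k => x i k)) = y := by
        funext i; exact hx i
      rw [this, hy]
  refine ⟨compHomeo Ψg Ψh k0, (i0, k0), ?_, ?_⟩
  · intro t ht z
    funext ⟨i, k⟩
    show (if k = k0 then Ψg (fun i => Ψh (fun k => (t • z) (i, k)) k0) i else Ψh (fun k => (t • z) (i, k)) k)
      = t • (if k = k0 then Ψg (fun i => Ψh (fun k => z (i, k)) k0) i else Ψh (fun k => z (i, k)) k)
    have h1 : ∀ i, Ψh (fun k => (t • z) (i, k)) = t • Ψh (fun k => z (i, k)) := by
      intro i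
      rw [← hh1 t ht]
      rfl
    simp only [h1]
    by_cases hk : k = k0
    · simp only [hk, if_true]
      have h2 : (fun i => (t • Ψh (fun k => z (i, k))) k0) = t • (fun i => Ψh (fun k => z (i, k)) k0) := rfl
      rw [h2, hg1 t ht]
      rfl
    · simp only [hk, if_false]
      rfl
  · intro z
    rw [key, key]
    have h1 : compHomeo Ψg Ψh k0 z (i0, k0) = Ψg (fun i => Ψh (fun k => z (i, k)) k0) i0 := by
      show (if k0 = k0 then Ψg (fun i => Ψh (fun k => z (i, k)) k0) i0 else Ψh (fun k => z (i0, k)) k0) = _
      simp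
    rw [h1]
    exact hg2 _

end Comp

section Lock
variable {ι : Type*} [DecidableEq ι]

/-- flip the entries in a finite set -/
def xr (x : ι → Bool) (J : Finset ι) : ι → Bool := fun i => if i ∈ J then !(x i) else x i

/-- minimal sensitive block -/
def MinBlock (f : (ι → Bool) → Bool) (x : ι → Bool) (J : Finset ι) : Prop :=
  f (xr x J) ≠ f x ∧ ∀ K, K ⊂ J → f (xr x K) = f x

/-- locked cell: a minimal sensitive block with at least two elements -/
def Locked (f : (ι → Bool) → Bool) (x : ι → Bool) : Prop :=
  ∃ J : Finset ι, 2 ≤ J.card ∧ MinBlock f x J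

theorem xr_empty (x : ι → Bool) : xr x ∅ = x := by
  funext i; simp [xr]

theorem MinBlock.nonempty {f : (ι → Bool) → Bool} {x : ι → Bool} {J : Finset ι} (h : MinBlock f x J) :
    J.Nonempty := by
  rw [Finset.nonempty_iff_ne_empty]
  rintro rfl
  exact h.1 (by rw [xr_empty])

theorem exists_minBlock (f : (ι → Bool) → Bool) (x : ι → Bool) (J : Finset ι) (h : f (xr x J) ≠ f x) :
    ∃ J', MinBlock f x J' := by
  induction J using Finset.strongInduction with
  | H J ih =>
    by_cases hJ : ∀ K, K ⊂ J → f (xr x K) = f x
    · exact ⟨J, h, hJ⟩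
    · push Not at hJ
      obtain ⟨K, hK, hne⟩ := hJ
      exact ih K hK hne

theorem exists_minBlock' [Fintype ι] (f : (ι → Bool) → Bool) (x y : ι → Bool) (h : f y ≠ f x) :
    ∃ J', MinBlock f x J' := by
  apply exists_minBlock f x (Finset.univ.filter (fun i => y i ≠ x i))
  have : xr x (Finset.univ.filter (fun i => y i ≠ x i)) = y := by
    funext i
    simp only [xr, Finset.mem_filter, Finset.mem_univ, true_and]
    split_ifs with h1
    · cases hy : y i <;> cases hx : x i <;> simp_all
    · push Not at h1; exact h1.symm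
  rw [this]; exact h

end Lock

section LockComp
variable {κ Λ : Type*} [DecidableEq κ] [DecidableEq Λ]

theorem row_xr (x : κ × Λ → Bool) (S : Finset (κ × Λ)) (i : κ) (T : Finset Λ)
    (hT : ∀ k, k ∈ T ↔ (i, k) ∈ S) :
    (fun k => xr x S (i, k)) = xr (fun k => x (i, k)) T := by
  funext k
  simp only [xr, hT]

/-- locks of the outer function lift -/
theorem locked_of_outer [Fintype Λ] (g : (κ → Bool) → Bool) (h : (Λ → Bool) → Bool) (x : κ × Λ → Bool)
    (hx : ∀ i, ∃ J, MinBlock h (fun k => x (i, k)) J)
    (hg : Locked g (fun i => h (fun k => x (i, k)))) : Locked (compo g h) x := by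
  classical
  choose Jh hJh using hx
  obtain ⟨J, hJ2, hJ⟩ := hg
  set S : Finset (κ × Λ) := J.biUnion (fun i => (Jh i).image (fun k => (i, k))) with hS
  have memS : ∀ i k, (i, k) ∈ S ↔ i ∈ J ∧ k ∈ Jh i := by
    intro i k
    simp only [hS, Finset.mem_biUnion, Finset.mem_image, Prod.mk.injEq]
    constructor
    · rintro ⟨a, ha, b, hb, rfl, rfl⟩; exact ⟨ha, hb⟩
    · rintro ⟨hi, hk⟩; exact ⟨i, hi, k, hk, rfl, rfl⟩
  -- value of `compo g h` on sub-flips
  have val : ∀ K ⊆ S, compo g h (xr x K) =
      g (xr (fun i => h (fun k => x (i, k))) (J.filter (fun i => ∀ k ∈ Jh i, (i, k) ∈ K))) := by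
    intro K hK
    show g (fun i => h (fun k => xr x K (i, k))) = _
    congr 1
    funext i
    set T := (Finset.univ : Finset Λ).filter (fun k => (i, k) ∈ K) with hT
    rw [row_xr x K i T (by intro k; simp [hT])]
    by_cases hi : i ∈ J
    · have hTsub : T ⊆ Jh i := by
        intro k hk
        have h1 : (i, k) ∈ K := by simpa [hT] using hk
        exact ((memS i k).mp (hK h1)).2
      by_cases hall : ∀ k ∈ Jh i, (i, k) ∈ K
      · have hTe : T = Jh i := by
          apply Finset.Subset.antisymm hTsub
          intro k hk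
          simp only [hT, Finset.mem_filter, Finset.mem_univ, true_and]
          exact hall k hk
        rw [hTe]
        have h1 := (hJh i).1
        have h2 : xr (fun i => h (fun k => x (i, k))) (J.filter (fun i => ∀ k ∈ Jh i, (i, k) ∈ K)) i =
            !(h (fun k => x (i, k))) := by
          simp only [xr, Finset.mem_filter, hi, true_and]
          rw [if_pos hall]
        rw [h2]
        revert h1
        generalize h (xr (fun k => x (i, k)) (Jh i)) = a
        generalize h (fun k => x (i, k)) = b
        cases a <;> cases b <;> simp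
      · have hTss : T ⊂ Jh i := by
          rw [Finset.ssubset_iff_subset_ne]
          refine ⟨hTsub, ?_⟩
          rintro hTe
          apply hall
          intro k hk
          rw [← hTe] at hk
          simpa [hT] using hk
        rw [(hJh i).2 T hTss]
        simp only [xr, Finset.mem_filter, hi, hall, and_false, if_false]
    · have hTe : T = ∅ := by
        apply Finset.eq_empty_of_forall_notMem
        intro k hk
        have h1 : (i, k) ∈ K := by simpa [hT] using hk
        exact hi ((memS i k).mp (hK h1)).1
      rw [hTe, xr_empty]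
      simp only [xr, Finset.mem_filter, hi, false_and, if_false]
  refine ⟨S, ?_, ?_, ?_⟩
  · -- card
    have h1 : J.card ≤ S.card := by
      have hch : ∀ i, ∃ k, k ∈ Jh i := fun i => (hJh i).nonempty
      choose k0 hk0 using hch
      apply Finset.card_le_card_of_injOn (fun i => (i, k0 i))
      · intro i hi
        exact (memS i (k0 i)).mpr ⟨hi, hk0 i⟩
      · intro a _ b _ hab
        exact (Prod.mk.injEq _ _ _ _ ▸ hab : a = b ∧ _).1
    omega
  · rw [val S (Finset.Subset.refl _)]
    have h1 : J.filter (fun i => ∀ k ∈ Jh i, (i, k) ∈ S) = J := by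
      apply Finset.filter_true_of_mem
      intro i hi k hk
      exact (memS i k).mpr ⟨hi, hk⟩
    rw [h1]
    exact hJ.1
  · intro K hK
    rw [val K hK.1]
    apply hJ.2
    rw [Finset.ssubset_iff_subset_ne]
    refine ⟨Finset.filter_subset _ _, ?_⟩
    intro heq
    apply hK.2
    rintro ⟨i, k⟩ hik
    obtain ⟨hi, hk⟩ := (memS i k).mp hik
    rw [← heq, Finset.mem_filter] at hi
    exact hi.2 k hk

/-- locks of an inner function lift at sensitive coordinates -/
theorem locked_of_inner [Fintype Λ] (g : (κ → Bool) → Bool) (h : (Λ → Bool) → Bool) (x : κ × Λ → Bool) (i : κ)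
    (hg : g (xr (fun i => h (fun k => x (i, k))) {i}) ≠ g (fun i => h (fun k => x (i, k))))
    (hh : Locked h (fun k => x (i, k))) : Locked (compo g h) x := by
  classical
  obtain ⟨J, hJ2, hJ⟩ := hh
  set S : Finset (κ × Λ) := J.image (fun k => (i, k)) with hS
  have hinj : Function.Injective (fun k : Λ => (i, k)) := fun a b hab => (Prod.mk.inj hab).2
  have memS : ∀ a k, (a, k) ∈ S ↔ a = i ∧ k ∈ J := by
    intro a k
    simp only [hS, Finset.mem_image, Prod.mk.injEq]
    constructor
    · rintro ⟨b, hb, rfl, rfl⟩; exact ⟨rfl, hb⟩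
    · rintro ⟨rfl, hk⟩; exact ⟨k, hk, rfl, rfl⟩
  have rows : ∀ K ⊆ S, ∀ a, a ≠ i → (fun k => xr x K (a, k)) = (fun k => x (a, k)) := by
    intro K hK a ha
    rw [row_xr x K a ∅ (by
      intro k
      simp only [Finset.notMem_empty, false_iff]
      intro h1
      exact ha ((memS a k).mp (hK h1)).1), xr_empty]
  refine ⟨S, ?_, ?_, ?_⟩
  · rw [hS, Finset.card_image_of_injective _ hinj]; exact hJ2
  · show g (fun a => h (fun k => xr x S (a, k))) ≠ g (fun a => h (fun k => x (a, k)))
    have h1 : (fun a => h (fun k => xr x S (a, k))) = xr (fun i => h (fun k => x (i, k))) {i} := by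
      funext a
      by_cases ha : a = i
      · subst ha
        rw [row_xr x S a J (by intro k; rw [memS]; simp)]
        have h2 := hJ.1
        have h3 : xr (fun i => h (fun k => x (i, k))) {a} a = !(h (fun k => x (a, k))) := by
          simp only [xr, Finset.mem_singleton, if_true]
        rw [h3]
        revert h2
        generalize h (xr (fun k => x (a, k)) J) = p
        generalize h (fun k => x (a, k)) = q
        cases p <;> cases q <;> simp
      · rw [rows S (Finset.Subset.refl _) a ha]
        simp only [xr, Finset.mem_singleton, ha, if_false]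
    rw [h1]; exact hg
  · intro K hK
    show g (fun a => h (fun k => xr x K (a, k))) = g (fun a => h (fun k => x (a, k)))
    congr 1
    funext a
    by_cases ha : a = i
    · subst ha
      set T := (Finset.univ : Finset Λ).filter (fun k => (a, k) ∈ K) with hT
      rw [row_xr x K a T (by intro k; simp [hT])]
      apply hJ.2
      rw [Finset.ssubset_iff_subset_ne]
      constructor
      · intro k hk
        have h1 : (a, k) ∈ K := by simpa [hT] using hk
        exact ((memS a k).mp (hK.1 h1)).2
      · rintro hTe
        apply hK.2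
        rintro ⟨b, k⟩ hbk
        obtain ⟨rfl, hk⟩ := (memS b k).mp hbk
        rw [← hTe] at hk
        simpa [hT] using hk
    · rw [rows K hK.1 a ha]

end LockComp

section LockReindex
variable {ι ι' : Type*} [DecidableEq ι] [DecidableEq ι']

theorem Locked.reindex {f : (ι → Bool) → Bool} (e : ι ≃ ι') (x' : ι' → Bool)
    (h : Locked f (fun i => x' (e i))) : Locked (fun x' : ι' → Bool => f (fun i => x' (e i))) x' := by
  obtain ⟨J, hJ2, hJ⟩ := h
  have key : ∀ K : Finset ι', (fun i => xr x' K (e i)) = xr (fun i => x' (e i)) (K.map e.symm.toEmbedding) := by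
    intro K
    funext i
    simp only [xr, Finset.mem_map_equiv, Equiv.symm_symm]
  refine ⟨J.map e.toEmbedding, by rw [Finset.card_map]; exact hJ2, ?_, ?_⟩
  · show f (fun i => xr x' (J.map e.toEmbedding) (e i)) ≠ f (fun i => x' (e i))
    rw [key]
    have : (J.map e.toEmbedding).map e.symm.toEmbedding = J := by
      ext i; simp
    rw [this]; exact hJ.1
  · intro K hK
    show f (fun i => xr x' K (e i)) = f (fun i => x' (e i))
    rw [key]
    apply hJ.2
    rw [Finset.ssubset_iff_subset_ne] at hK ⊢
    constructor
    · intro i hi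
      rw [Finset.mem_map_equiv, Equiv.symm_symm] at hi
      have := hK.1 hi
      simpa using this
    · intro heq
      apply hK.2
      rw [← heq]
      ext i; simp

end LockReindex

end Pool.Agent.Lib.MP_8f7fef_co
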