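import Pool.Agent.Lib.InvDomain.Open

set_option autoImplicit false
set_option linter.unusedSectionVars false

open Metric Topology

namespace Pool.Agent.Lib.MP_8f7fef_co

/-- A subset `X` of a space homeomorphic to the `n`-sphere cannot contain a continuous injective
image of an `n`-ball together with points outside of the image converging to the image of the
centre. -/
theorem core {Y : Type*} [TopologicalSpace Y] {n : ℕ} (hn : 0 < n) (X : Set Y)
    (e : ↥X ≃ₜ ↥(sphere (0 : EuclideanSpace ℝ (Fin (n + 1))) 1))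
    (φ : EuclideanSpace ℝ (Fin n) → Y) (hφ : Continuous φ) (hinj : Function.Injective φ)
    (r : ℝ) (hr : 0 < r) (hX : ∀ w, ‖w‖ < r → φ w ∈ X)
    (q : ℕ → Y) (hq : ∀ k, q k ∈ X) (hqφ : ∀ k w, φ w ≠ q k)
    (hlim : Filter.Tendsto q Filter.atTop (𝓝 (φ 0))) : False := by
  classical
  have : Fact (Module.finrank ℝ (EuclideanSpace ℝ (Fin (n + 1))) = n + 1) := ⟨by simp⟩
  have h0X : φ 0 ∈ X := hX 0 (by simpa using hr)
  let p : ↥X := ⟨φ 0, h0X⟩
  let s0 := e p
  let χ := stereographic' n (-s0)
  have hsrc : s0 ∈ χ.source := by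
    simp only [χ, stereographic'_source, Set.mem_compl_iff, Set.mem_singleton_iff]
    intro h
    have h1 : (s0 : EuclideanSpace ℝ (Fin (n + 1))) = -s0 := congrArg Subtype.val h
    have h2 : (s0 : EuclideanSpace ℝ (Fin (n + 1))) = 0 := by
      have h4 : (2 : ℝ) • (s0 : EuclideanSpace ℝ (Fin (n + 1))) = 0 := by
        rw [two_smul]
        nth_rewrite 1 [h1]
        exact neg_add_cancel _
      rcases smul_eq_zero.mp h4 with h5 | h5
      · norm_num at h5
      · exact h5
    have h3 : ‖(s0 : EuclideanSpace ℝ (Fin (n + 1)))‖ = 1 := by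
      have := s0.2
      rwa [mem_sphere_zero_iff_norm] at this
    rw [h2, norm_zero] at h3
    exact zero_ne_one h3
  let ψ : EuclideanSpace ℝ (Fin n) → ↥X := fun w => if h : φ w ∈ X then ⟨φ w, h⟩ else p
  have hψ : ∀ w, ‖w‖ < r → (ψ w : Y) = φ w := by
    intro w hw
    simp only [ψ, dif_pos (hX w hw)]
  have hψc : ContinuousOn ψ (ball 0 r) := by
    rw [Topology.IsInducing.subtypeVal.continuousOn_iff]
    apply hφ.continuousOn.congr
    intro w hw
    exact hψ w (by simpa using hw)
  have hψ0 : ψ 0 = p := Subtype.ext (hψ 0 (by simpa using hr))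
  -- shrink so that the image avoids the pole
  have hnear : ∀ᶠ w in 𝓝 (0 : EuclideanSpace ℝ (Fin n)), e (ψ w) ∈ χ.source := by
    have h1 : ContinuousAt (fun w => e (ψ w)) 0 :=
      e.continuous.continuousAt.comp (hψc.continuousAt (ball_mem_nhds _ hr))
    apply h1.eventually
    apply χ.open_source.mem_nhds
    show e (ψ 0) ∈ χ.source
    rw [hψ0]; exact hsrc
  obtain ⟨r1, hr1, hball⟩ := Metric.eventually_nhds_iff.mp hnear
  set r' := min r r1 / 2 with hr'
  have hr'0 : 0 < r' := by positivity
  have hr'r : r' < r := by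
    have := min_le_left r r1
    have := lt_min hr hr1
    linarith
  have hr'1 : r' < r1 := by
    have := min_le_right r r1
    have := lt_min hr hr1
    linarith
  have hmem : ∀ w ∈ closedBall (0 : EuclideanSpace ℝ (Fin n)) r', ‖w‖ < r ∧ e (ψ w) ∈ χ.source := by
    intro w hw
    have h1 : ‖w‖ ≤ r' := by simpa using hw
    refine ⟨by linarith, hball (by rw [dist_zero_right]; linarith)⟩
  set F : EuclideanSpace ℝ (Fin n) → EuclideanSpace ℝ (Fin n) := fun w => χ (e (ψ w)) with hF
  have hFc : ContinuousOn F (closedBall 0 r') := by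
    apply χ.continuousOn.comp
    · apply e.continuous.comp_continuousOn
      apply hψc.mono
      intro w hw
      simpa using (hmem w hw).1
    · intro w hw
      exact (hmem w hw).2
  have hFi : Set.InjOn F (closedBall 0 r') := by
    intro a ha b hb hab
    have h1 := χ.injOn (hmem a ha).2 (hmem b hb).2 hab
    have h2 := e.injective h1
    apply hinj
    rw [← hψ a (hmem a ha).1, ← hψ b (hmem b hb).1, h2]
  have hint := Pool.Agent.Lib.InvDomain.mem_interior_image_ball hn F 0 hr'0 hFc hFi
  rw [mem_interior_iff_mem_nhds] at hint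
  -- the points `q k` in `X`
  have hqlim : Filter.Tendsto (fun k => (⟨q k, hq k⟩ : ↥X)) Filter.atTop (𝓝 p) := by
    rw [tendsto_subtype_rng]
    exact hlim
  have h1 : ContinuousAt (fun y : ↥X => χ (e y)) p :=
    (χ.continuousAt hsrc).comp e.continuous.continuousAt
  have hF0 : F 0 = χ (e p) := by simp only [hF, hψ0]
  rw [hF0] at hint
  have h2 : ∀ᶠ y in 𝓝 p, χ (e y) ∈ F '' closedBall 0 r' := h1.eventually hint
  have h3 : ∀ᶠ y in 𝓝 p, e y ∈ χ.source :=
    e.continuous.continuousAt.eventually (χ.open_source.mem_nhds hsrc)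
  obtain ⟨k, hk1, hk2⟩ := (hqlim.eventually (h2.and h3)).exists
  obtain ⟨w, hw, hwk⟩ := hk1
  have h4 := χ.injOn (hmem w hw).2 hk2 hwk
  have h5 := e.injective h4
  apply hqφ k w
  rw [← hψ w (hmem w hw).1, h5]

end Pool.Agent.Lib.MP_8f7fef_co
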