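import Pool.Agent.Lib.MP_8f7fef_co.NotPP
import Pool.Agent.Lib.MP_8f7fef_co.DataA
import Pool.Agent.Lib.MP_8f7fef_co.DataB
import Pool.Agent.Lib.MP_8f7fef_co.DataC
import Pool.Agent.Lib.MP_8f7fef_co.DataD
import Pool.Agent.Lib.MP_8f7fef_co.DataH

set_option autoImplicit false
set_option maxRecDepth 100000

namespace Pool.Agent.Lib.MP_8f7fef_co

/-- the mask of the inner function -/
def HM : ℕ := 0xff5555005533330033111100110f0f000f050500050303000301010001000000fe04040054000000b0000000100000000e0404000400000000000000000000000055540054003000301110001000000000450000000000000001000000000000fc44444454000000b000000010000000cc4404444400000000000000000000000000000000333220221110000005000000050000000302000201000000000000000000000000000000000000000000000004000000000000000000000000000000555050503030203031303030000000004500000000000000010000000000000040404040000000000000000000000000440000000000000000000000000000220000000000000022000000000f0e000e0c0400040302000200000000000000aa00000000000000a2000000000e0e00ae0c0400040a0a00aa0000000000000000000000000000002000000000000000000000000000000000000000000000008800000000000000a00000000000000088000000000000000000000000000000000000000033222022330000000f0000000d0000000f0200020f000000000000000000000000000000000000000a0000000c0000000a0000000000000000000000000000003000202030000000000000000000000000000000000000000000000000000000000000000000000000000000000000000000000000000000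

/-- the inner function: a corner-free maximum class of VC dimension 3 on 12 points -/
def hh : (Fin 12 → Bool) → Bool := fn 12 HM

/-- the outer function -/
def gg : (Fin 4 → Bool) → Bool := fn 4 583

theorem hm0 : (2 ^ 2 ^ 12 - 1) ^^^ 2 ^ 31 = 0xffffffffffffffffffffffffffffffffffffffffffffffffffffffffffffffffffffffffffffffffffffffffffffffffffffffffffffffffffffffffffffffffffffffffffffffffffffffffffffffffffffffffffffffffffffffffffffffffffffffffffffffffffffffffffffffffffffffffffffffffffffffffffffffffffffffffffffffffffffffffffffffffffffffffffffffffffffffffffffffffffffffffffffffffffffffffffffffffffffffffffffffffffffffffffffffffffffffffffffffffffffffffffffffffffffffffffffffffffffffffffffffffffffffffffffffffffffffffffffffffffffffffffffffffffffffffffffffffffffffffffffffffffffffffffffffffffffffffffffffffffffffffffffffffffffffffffffffffffffffffffffffffffffffffffffffffffffffffffffffffffffffffffffffffffffffffffffffffffffffffffffffffffffffffffffffffffffffffffffffffffffffffffffffffffffffffffffffffffffffffffffffffffffffffffffffffffffffffffffffffffffffffffffffffffffffffffffffffffffffffffffffffffffffffffffffffffffffffffffffffffffffffffffffffffffffffffffffffffffffffffffffffffffffffffffffffffffffffffffffffffffffffffffffffffffffffffffffffffffffffffffffffffffffff7fffffff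 := by decide +kernel

theorem good_hh : Good hh := by
  have hF : 4095 = 2 ^ 12 - 1 := by norm_num
  have h0 : Good (fn 12 0xffffffffffffffffffffffffffffffffffffffffffffffffffffffffffffffffffffffffffffffffffffffffffffffffffffffffffffffffffffffffffffffffffffffffffffffffffffffffffffffffffffffffffffffffffffffffffffffffffffffffffffffffffffffffffffffffffffffffffffffffffffffffffffffffffffffffffffffffffffffffffffffffffffffffffffffffffffffffffffffffffffffffffffffffffffffffffffffffffffffffffffffffffffffffffffffffffffffffffffffffffffffffffffffffffffffffffffffffffffffffffffffffffffffffffffffffffffffffffffffffffffffffffffffffffffffffffffffffffffffffffffffffffffffffffffffffffffffffffffffffffffffffffffffffffffffffffffffffffffffffffffffffffffffffffffffffffffffffffffffffffffffffffffffffffffffffffffffffffffffffffffffffffffffffffffffffffffffffffffffffffffffffffffffffffffffffffffffffffffffffffffffffffffffffffffffffffffffffffffffffffffffffffffffffffffffffffffffffffffffffffffffffffffffffffffffffffffffffffffffffffffffffffffffffffffffffffffffffffffffffffffffffffffffffffffffffffffffffffffffffffffffffffffffffffffffffffffffffffffffffffffffffffffffff7fffffff)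 := hm0 ▸ good_fn_cosingle (n := 12) (by norm_num) 31 (by norm_num)
  have h1 := chain_sound (n := 12) 4095 hF _ _ _ chunk0 h0
  have h2 := chain_sound (n := 12) 4095 hF _ _ _ chunk1 h1
  have h3 := chain_sound (n := 12) 4095 hF _ _ _ chunk2 h2
  have h4 := chain_sound (n := 12) 4095 hF _ _ _ chunk3 h3
  have h5 := chain_sound (n := 12) 4095 hF _ _ _ chunk4 h4
  have h6 := chain_sound (n := 12) 4095 hF _ _ _ chunk5 h5
  have h7 := chain_sound (n := 12) 4095 hF _ _ _ chunk6 h6
  have h8 := chain_sound (n := 12) 4095 hF _ _ _ chunk7 h7
  have h9 := chain_sound (n := 12) 4095 hF _ _ _ chunk8 h8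
  have h10 := chain_sound (n := 12) 4095 hF _ _ _ chunk9 h9
  have h11 := chain_sound (n := 12) 4095 hF _ _ _ chunk10 h10
  have h12 := chain_sound (n := 12) 4095 hF _ _ _ chunk11 h11
  have h13 := chain_sound (n := 12) 4095 hF _ _ _ chunk12 h12
  have h14 := chain_sound (n := 12) 4095 hF _ _ _ chunk13 h13
  have h15 := chain_sound (n := 12) 4095 hF _ _ _ chunk14 h14
  have h16 := chain_sound (n := 12) 4095 hF _ _ _ chunk15 h15
  have h17 := chain_sound (n := 12) 4095 hF _ _ _ chunk16 h16
  have h18 := chain_sound (n := 12) 4095 hF _ _ _ chunk17 h17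
  have h19 := chain_sound (n := 12) 4095 hF _ _ _ chunk18 h18
  have h20 := chain_sound (n := 12) 4095 hF _ _ _ chunk19 h19
  have h21 := chain_sound (n := 12) 4095 hF _ _ _ chunk20 h20
  have h22 := chain_sound (n := 12) 4095 hF _ _ _ chunk21 h21
  have h23 := chain_sound (n := 12) 4095 hF _ _ _ chunk22 h22
  have h24 := chain_sound (n := 12) 4095 hF _ _ _ chunk23 h23
  have h25 := chain_sound (n := 12) 4095 hF _ _ _ chunk24 h24
  have h26 := chain_sound (n := 12) 4095 hF _ _ _ chunk25 h25
  have h27 := chain_sound (n := 12) 4095 hF _ _ _ chunk26 h26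
  have h28 := chain_sound (n := 12) 4095 hF _ _ _ chunk27 h27
  have h29 := chain_sound (n := 12) 4095 hF _ _ _ chunk28 h28
  have h30 := chain_sound (n := 12) 4095 hF _ _ _ chunk29 h29
  have h31 := chain_sound (n := 12) 4095 hF _ _ _ chunk30 h30
  have h32 := chain_sound (n := 12) 4095 hF _ _ _ chunk31 h31
  have h33 := chain_sound (n := 12) 4095 hF _ _ _ chunk32 h32
  have h34 := chain_sound (n := 12) 4095 hF _ _ _ chunk33 h33
  have h35 := chain_sound (n := 12) 4095 hF _ _ _ chunk34 h34
  have h36 := chain_sound (n := 12) 4095 hF _ _ _ chunk35 h35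
  have h37 := chain_sound (n := 12) 4095 hF _ _ _ chunk36 h36
  have h38 := chain_sound (n := 12) 4095 hF _ _ _ chunk37 h37
  exact h38

theorem good_gg : Good gg := by
  have h0 : Good (fn 4 1) := good_fn_single (n := 4) (by norm_num) 0 (by norm_num)
  exact chain_sound (n := 4) 15 (by norm_num) _ _ _ g_chain h0

theorem hh_locked (y : Fin 12 → Bool) (hy : hh y = true) : Locked hh y :=
  lockAll_sound (n := 12) 4095 _ (by norm_num) _ _ h_locks y hy

theorem gg_prop (y : Fin 4 → Bool) :
    Locked gg y ∨ ∃ i, gg (xr y {i}) ≠ gg y ∧ y i = true := by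
  apply gAll_sound (n := 4) 15 583 (by norm_num) _ _ g_all y
  have h1 : code y < 16 := code_lt y
  have h2 : (65535 : ℕ) = 2 ^ 16 - 1 := by norm_num
  rw [h2, Nat.testBit_two_pow_sub_one]
  simp [h1]

theorem HM_true : HM.testBit 412 = true := by decide +kernel

theorem HM_false : HM.testBit 0 = false := by decide +kernel

theorem hh_true : hh (vec 12 412) = true := by
  show HM.testBit (code (vec 12 412)) = true
  rw [code_vec _ (by norm_num)]
  exact HM_true

theorem hh_false : hh (vec 12 0) = false := by
  show HM.testBit (code (vec 12 0)) = false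
  rw [code_vec _ (by norm_num)]
  exact HM_false

theorem hh_block (y : Fin 12 → Bool) : ∃ J, MinBlock hh y J := by
  cases hy : hh y
  · exact exists_minBlock' hh y (vec 12 412) (by rw [hy, hh_true]; simp)
  · exact exists_minBlock' hh y (vec 12 0) (by rw [hy, hh_false]; simp)

/-- the composed function: every cell is locked -/
theorem compo_locked (x : Fin 4 × Fin 12 → Bool) : Locked (compo gg hh) x := by
  rcases gg_prop (fun i => hh (fun k => x (i, k))) with h | ⟨i, hi, hy⟩
  · exact locked_of_outer gg hh x (fun i => hh_block _) h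
  · exact locked_of_inner gg hh x i hi (hh_locked _ hy)

/-- the equivalence of the coordinates -/
def ee : Fin 4 × Fin 12 ≃ Fin 48 := finProdFinEquiv

/-- the star pattern -/
def ff : (Fin 48 → Bool) → Bool := fun x => compo gg hh (fun p => x (ee p))

theorem good_ff : Good ff := (good_gg.comp good_hh).reindex ee

theorem ff_locked (x : Fin 48 → Bool) : Locked ff x := (compo_locked _).reindex ee x

/-- a cell coloured false -/
def w0 : Fin 48 → Bool := fun j => vec 12 412 (ee.symm j).2

theorem ff_w0 : ff w0 = false := by
  have h1 : ∀ i : Fin 4, (fun k => w0 (ee (i, k))) = vec 12 412 := by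
    intro i
    funext k
    simp [w0]
  show gg (fun i => hh (fun k => w0 (ee (i, k)))) = false
  simp only [h1, hh_true]
  have h2 : (fun _ : Fin 4 => true) = vec 4 15 := by
    funext i
    fin_cases i <;> rfl
  rw [h2]
  show (583 : ℕ).testBit (code (vec 4 15)) = false
  rw [code_vec _ (by norm_num)]
  decide

theorem ff_single_ne : ∃ x, (decide (x = w0)) ≠ ff x := ⟨w0, by rw [ff_w0]; simp⟩

/-- the star pattern of an animal with star pattern `ff` never changes -/
theorem star_step (Y Z : Finset (Fin 48 → ℤ)) (hZ : PP Z) (h1 : (symmDiff Y Z).card = 1)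
    (hY : ∀ x, cellOf x ∈ Y ↔ ff x = true) : ∀ x, cellOf x ∈ Z ↔ ff x = true := by
  classical
  obtain ⟨a, ha⟩ := Finset.card_eq_one.mp h1
  have hmem : ∀ b, b ≠ a → (b ∈ Z ↔ b ∈ Y) := by
    intro b hb
    have h2 : b ∉ symmDiff Y Z := by rw [ha]; simpa using hb
    rw [Finset.mem_symmDiff] at h2
    tauto
  have hmema : a ∈ Z ↔ ¬ a ∈ Y := by
    have h2 : a ∈ symmDiff Y Z := by rw [ha]; simp
    rw [Finset.mem_symmDiff] at h2
    tauto
  by_cases hcell : ∃ x0 : Fin 48 → Bool, cellOf x0 = a
  · exfalso
    obtain ⟨x0, hx0⟩ := hcell
    obtain ⟨J, hJ2, hJ1, hJ⟩ := ff_locked x0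
    have hval : ∀ K, (K.Nonempty) → (cellOf (xr x0 K) ∈ Z ↔ ff (xr x0 K) = true) := by
      intro K hK
      rw [hmem, hY]
      rw [← hx0]
      intro h
      have h2 := cellOf_injective h
      obtain ⟨i, hi⟩ := hK
      have h3 := congrFun h2 i
      simp only [xr, hi, if_true] at h3
      cases hv : x0 i <;> simp [hv] at h3
    have h0 : cellOf x0 ∈ Z ↔ ¬ (ff x0 = true) := by
      rw [hx0, hmema, ← hx0, hY]
    refine not_PP_of_antip (n := 47) (by norm_num) Z x0 J hJ2 (!(ff x0)) ?_ hZ
    intro K hK
    by_cases hK0 : K = ∅
    · subst hK0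
      rw [xr_empty, h0]
      cases ff x0 <;> simp
    · have hKn : K.Nonempty := Finset.nonempty_iff_ne_empty.mpr hK0
      rw [hval K hKn]
      by_cases hKJ : K = J
      · subst hKJ
        revert hJ1
        generalize ff (xr x0 K) = p
        generalize ff x0 = q
        cases p <;> cases q <;> simp
      · rw [hJ K (Finset.ssubset_iff_subset_ne.mpr ⟨hK, hKJ⟩)]
        cases ff x0 <;> simp [hK0, hKJ]
  · push Not at hcell
    intro x
    rw [hmem _ (hcell x), hY]

theorem mem_starSet {d : ℕ} (f : (Fin d → Bool) → Bool) (x : Fin d → Bool) :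
    cellOf x ∈ starSet f ↔ f x = true := by
  simp only [starSet, Finset.mem_image, Finset.mem_filter, Finset.mem_univ, true_and]
  constructor
  · rintro ⟨y, hy, hxy⟩
    rw [← cellOf_injective hxy]; exact hy
  · intro h
    exact ⟨x, h, rfl⟩

theorem not_reachable :
    ¬ Relation.ReflTransGen
      (fun X Y : Finset (Fin 48 → ℤ) => PP X ∧ PP Y ∧ (symmDiff X Y).card = 1)
      (starSet ff) (starSet (fun x => decide (x = w0))) := by
  intro h
  have key : ∀ Y, Relation.ReflTransGen
      (fun X Y : Finset (Fin 48 → ℤ) => PP X ∧ PP Y ∧ (symmDiff X Y).card = 1)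
      (starSet ff) Y → ∀ x, cellOf x ∈ Y ↔ ff x = true := by
    intro Y hY
    induction hY with
    | refl => exact mem_starSet ff
    | tail _ hstep ih => exact star_step _ _ hstep.2.1 hstep.2.2 ih
  have h2 := key _ h w0
  rw [mem_starSet, ff_w0] at h2
  simp at h2

end Pool.Agent.Lib.MP_8f7fef_co
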