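import Pool.Agent.Lib.MP_8f7fef_co.Good

set_option autoImplicit false
set_option linter.unusedSectionVars false

namespace Pool.Agent.Lib.MP_8f7fef_co

variable {ι : Type*} [Fintype ι] [DecidableEq ι]

theorem mem_orth_iff (x y : ι → Bool) (z : ι → ℝ) :
    z ∈ orth y ↔ ∀ i, (y i = x i → 0 ≤ su x z i) ∧ (y i ≠ x i → su x z i ≤ 0) := by
  constructor
  · intro h i
    have h1 := h i
    refine ⟨fun h2 => ?_, fun h2 => ?_⟩
    · rw [h2] at h1; exact h1
    · have h3 : y i = !(x i) := by
        cases hy : y i <;> cases hx : x i <;> simp_all
      rw [h3, sg_not] at h1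
      simp only [su]
      linarith
  · intro h i
    by_cases h2 : y i = x i
    · rw [h2]; exact (h i).1 h2
    · have h3 : y i = !(x i) := by
        cases hy : y i <;> cases hx : x i <;> simp_all
      have := (h i).2 h2
      rw [h3, sg_not]
      simp only [su] at this
      linarith

section
variable (x : ι → Bool) (I : Finset ι) (hI : I.Nonempty) (hN : Iᶜ.Nonempty)

/-- smallest `u`-coordinate in `I` -/
noncomputable def al (z : ι → ℝ) : ℝ := I.inf' hI (su x z)
/-- smallest `u`-coordinate outside `I` -/
noncomputable def be (z : ι → ℝ) : ℝ := Iᶜ.inf' hN (su x z)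
/-- length of the shift -/
noncomputable def ss (z : ι → ℝ) : ℝ := max 0 (al x I hI z + be x I hN z)

theorem al_le (z : ι → ℝ) {i : ι} (hi : i ∈ I) : al x I hI z ≤ su x z i := Finset.inf'_le _ hi
theorem be_le (z : ι → ℝ) {i : ι} (hi : i ∉ I) : be x I hN z ≤ su x z i :=
  Finset.inf'_le _ (Finset.mem_compl.mpr hi)
theorem al_attained (z : ι → ℝ) : ∃ i ∈ I, al x I hI z = su x z i := by
  obtain ⟨i, hi, h⟩ := Finset.exists_mem_eq_inf' hI (su x z)
  exact ⟨i, hi, h⟩
theorem be_attained (z : ι → ℝ) : ∃ i, i ∉ I ∧ be x I hN z = su x z i := by
  obtain ⟨i, hi, h⟩ := Finset.exists_mem_eq_inf' hN (su x z)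
  exact ⟨i, Finset.mem_compl.mp hi, h⟩

/-- shift along the diagonal direction by `σ` times the length -/
noncomputable def shift (σ : ℝ) (z : ι → ℝ) : ι → ℝ :=
  fun i => z i + sg (x i) * ((if i ∈ I then -σ else σ) * ss x I hI hN z)

theorem su_shift (σ : ℝ) (z : ι → ℝ) (i : ι) :
    su x (shift x I hI hN σ z) i = su x z i + (if i ∈ I then -σ else σ) * ss x I hI hN z := by
  simp only [su, shift]
  rw [mul_add, ← mul_assoc, sg_mul_self, one_mul]

theorem al_shift (σ : ℝ) (z : ι → ℝ) :
    al x I hI (shift x I hI hN σ z) = al x I hI z - σ * ss x I hI hN z := by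
  apply le_antisymm
  · obtain ⟨i, hi, h⟩ := al_attained x I hI z
    have h1 := al_le x I hI (shift x I hI hN σ z) hi
    rw [su_shift, if_pos hi] at h1
    rw [h]; linarith
  · obtain ⟨i, hi, h⟩ := al_attained x I hI (shift x I hI hN σ z)
    rw [h, su_shift, if_pos hi]
    have := al_le x I hI z hi
    linarith

theorem be_shift (σ : ℝ) (z : ι → ℝ) :
    be x I hN (shift x I hI hN σ z) = be x I hN z + σ * ss x I hI hN z := by
  apply le_antisymm
  · obtain ⟨i, hi, h⟩ := be_attained x I hN z
    have h1 := be_le x I hN (shift x I hI hN σ z) hi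
    rw [su_shift, if_neg hi] at h1
    rw [h]; linarith
  · obtain ⟨i, hi, h⟩ := be_attained x I hN (shift x I hI hN σ z)
    rw [h, su_shift, if_neg hi]
    have := be_le x I hN z hi
    linarith

theorem ss_shift (σ : ℝ) (z : ι → ℝ) : ss x I hI hN (shift x I hI hN σ z) = ss x I hI hN z := by
  unfold ss
  rw [al_shift, be_shift]
  congr 1; ring

theorem shift_shift (σ : ℝ) (z : ι → ℝ) :
    shift x I hI hN (-σ) (shift x I hI hN σ z) = z := by
  funext i
  show shift x I hI hN σ z i + sg (x i) * ((if i ∈ I then -(-σ) else -σ) *
    ss x I hI hN (shift x I hI hN σ z)) = z i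
  rw [ss_shift]
  simp only [shift]
  split_ifs <;> ring

theorem continuous_su : Continuous (su x : (ι → ℝ) → (ι → ℝ)) := by
  unfold su; fun_prop

theorem ss_continuous : Continuous (ss x I hI hN) := by
  unfold ss al be
  apply Continuous.max continuous_const
  apply Continuous.add
  · apply Continuous.finset_inf'_apply
    intro i _
    exact (continuous_apply i).comp (continuous_su x)
  · apply Continuous.finset_inf'_apply
    intro i _
    exact (continuous_apply i).comp (continuous_su x)

theorem shift_continuous (σ : ℝ) : Continuous (shift x I hI hN σ) := by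
  apply continuous_pi
  intro i
  unfold shift
  exact (continuous_apply i).add (continuous_const.mul (continuous_const.mul (ss_continuous x I hI hN)))

/-- the flip homeomorphism -/
noncomputable def Th : (ι → ℝ) ≃ₜ (ι → ℝ) where
  toFun := shift x I hI hN 1
  invFun := shift x I hI hN (-1)
  left_inv z := shift_shift x I hI hN 1 z
  right_inv z := by
    have := shift_shift x I hI hN (-1) z
    rwa [neg_neg] at this
  continuous_toFun := shift_continuous x I hI hN 1
  continuous_invFun := shift_continuous x I hI hN (-1)

theorem al_smul (t : ℝ) (ht : 0 < t) (z : ι → ℝ) : al x I hI (t • z) = t * al x I hI z := by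
  have hsu : ∀ i, su x (t • z) i = t * su x z i := by
    intro i; simp only [su, Pi.smul_apply, smul_eq_mul]; ring
  apply le_antisymm
  · obtain ⟨i, hi, h⟩ := al_attained x I hI z
    have h1 := al_le x I hI (t • z) hi
    rw [hsu] at h1
    rw [h]; exact h1
  · obtain ⟨i, hi, h⟩ := al_attained x I hI (t • z)
    rw [h, hsu]
    exact mul_le_mul_of_nonneg_left (al_le x I hI z hi) ht.le

theorem be_smul (t : ℝ) (ht : 0 < t) (z : ι → ℝ) : be x I hN (t • z) = t * be x I hN z := by
  have hsu : ∀ i, su x (t • z) i = t * su x z i := by
    intro i; simp only [su, Pi.smul_apply, smul_eq_mul]; ring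
  apply le_antisymm
  · obtain ⟨i, hi, h⟩ := be_attained x I hN z
    have h1 := be_le x I hN (t • z) hi
    rw [hsu] at h1
    rw [h]; exact h1
  · obtain ⟨i, hi, h⟩ := be_attained x I hN (t • z)
    rw [h, hsu]
    exact mul_le_mul_of_nonneg_left (be_le x I hN z hi) ht.le

theorem ss_smul (t : ℝ) (ht : 0 < t) (z : ι → ℝ) : ss x I hI hN (t • z) = t * ss x I hI hN z := by
  unfold ss
  rw [al_smul x I hI t ht, be_smul x I hN t ht, ← mul_add, mul_max_of_nonneg _ _ ht.le, mul_zero]

theorem shift_smul (σ t : ℝ) (ht : 0 < t) (z : ι → ℝ) :
    shift x I hI hN σ (t • z) = t • shift x I hI hN σ z := by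
  funext i
  simp only [shift, Pi.smul_apply, smul_eq_mul]
  rw [ss_smul x I hI hN t ht]
  ring

/-- flip the entries satisfying `P` -/
noncomputable def fl (P : ι → Prop) : ι → Bool := by
  classical
  exact fun i => if P i then !(x i) else x i

theorem fl_of (P : ι → Prop) {i : ι} (h : P i) : fl x P i = !(x i) := by
  simp [fl, h]
theorem fl_of_not (P : ι → Prop) {i : ι} (h : ¬ P i) : fl x P i = x i := by
  simp [fl, h]
theorem fl_ne (P : ι → Prop) {i : ι} (h : P i) : fl x P i ≠ x i := by
  rw [fl_of x P h]; simp
theorem fl_ne' (P : ι → Prop) {i : ι} (h : P i) : fl x P ≠ x := fun he => fl_ne x P h (congrFun he i)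
theorem not_of_fl_eq (P : ι → Prop) {i : ι} (h : fl x P i = x i) : ¬ P i := fun hP => fl_ne x P hP h
theorem of_fl_ne (P : ι → Prop) {i : ι} (h : fl x P i ≠ x i) : P i := by
  by_contra hP
  exact h (fl_of_not x P hP)

variable {x I}
variable {f : (ι → Bool) → Bool} {c : Bool} (hc : f x = c)
  (hNc : ∀ y, (∀ i ∈ I, y i = x i) → f y = c)
  (hIc : ∀ y, (∀ i, i ∉ I → y i = x i) → y ≠ x → f y = !c)

include hc hNc hIc

theorem upd_self : Function.update f x (!c) x = !c := Function.update_self _ _ _
theorem upd_of_ne {y : ι → Bool} (h : y ≠ x) : Function.update f x (!c) y = f y :=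
  Function.update_of_ne h _ _

theorem claim1 (z : ι → ℝ) :
    z ∈ U (Function.update f x (!c)) (!c) ↔ shift x I hI hN 1 z ∈ U f (!c) := by
  rcases le_or_gt (al x I hI z + be x I hN z) 0 with hab | hab
  · have hs : ss x I hI hN z = 0 := max_eq_left hab
    have hz : shift x I hI hN 1 z = z := by
      funext i; simp [shift, hs]
    rw [hz]
    constructor
    · rintro ⟨y, hy, hzy⟩
      by_cases hyx : y = x
      · subst hyx
        have hu := (mem_orth_iff y y z).mp hzy
        obtain ⟨i, hi, hai⟩ := al_attained y I hI z
        obtain ⟨j, hj, hbj⟩ := be_attained y I hN z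
        have h1 := (hu i).1 rfl
        have h2 := (hu j).1 rfl
        have h3 : su y z i = 0 := by linarith
        refine ⟨fl y (fun k => k = i), ?_, ?_⟩
        · apply hIc
          · intro k hk
            apply fl_of_not
            rintro rfl; exact hk hi
          · exact fl_ne' y _ (i := i) rfl
        · rw [mem_orth_iff y]
          intro k
          refine ⟨fun _ => (hu k).1 rfl, fun hk => ?_⟩
          have : k = i := of_fl_ne y (fun k => k = i) hk
          rw [this, h3]
      · exact ⟨y, by rw [← upd_of_ne hc hNc hIc hyx]; exact hy, hzy⟩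
    · rintro ⟨y, hy, hzy⟩
      have hyx : y ≠ x := by
        rintro rfl
        rw [hc] at hy
        cases c <;> simp at hy
      exact ⟨y, by rw [upd_of_ne hc hNc hIc hyx]; exact hy, hzy⟩
  · have hs : ss x I hI hN z = al x I hI z + be x I hN z := max_eq_right hab.le
    have e1 : z ∈ U (Function.update f x (!c)) (!c) ↔ 0 ≤ be x I hN z := by
      constructor
      · rintro ⟨y, hy, hzy⟩
        by_contra hb
        push Not at hb
        have hu := (mem_orth_iff x y z).mp hzy
        have hyI : ∀ i ∈ I, y i = x i := by
          intro i hi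
          by_contra hne
          have h1 := (hu i).2 hne
          have h2 := al_le x I hI z hi
          linarith
        by_cases hyx : y = x
        · obtain ⟨j, hj, hbj⟩ := be_attained x I hN z
          have := (hu j).1 (by rw [hyx])
          linarith
        · rw [upd_of_ne hc hNc hIc hyx, hNc y hyI] at hy
          cases c <;> simp at hy
      · intro hb
        refine ⟨fl x (fun i => i ∈ I ∧ su x z i < 0), ?_, ?_⟩
        · by_cases hyx : fl x (fun i => i ∈ I ∧ su x z i < 0) = x
          · rw [hyx]; exact upd_self hc hNc hIc
          · rw [upd_of_ne hc hNc hIc hyx]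
            apply hIc _ _ hyx
            intro i hi
            apply fl_of_not
            exact fun h => hi h.1
        · rw [mem_orth_iff x]
          intro i
          constructor
          · intro h
            have h1 := not_of_fl_eq x (fun i => i ∈ I ∧ su x z i < 0) h
            by_cases hi : i ∈ I
            · by_contra h2
              push Not at h2
              exact h1 ⟨hi, h2⟩
            · exact hb.trans (be_le x I hN z hi)
          · intro h
            exact (of_fl_ne x (fun i => i ∈ I ∧ su x z i < 0) h).2.le
    have e2 : shift x I hI hN 1 z ∈ U f (!c) ↔ 0 ≤ be x I hN z := by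
      have ha' := al_shift x I hI hN 1 z
      have hb' := be_shift x I hI hN 1 z
      rw [hs] at ha' hb'
      constructor
      · rintro ⟨y, hy, hzy⟩
        by_contra hb
        push Not at hb
        have hu := (mem_orth_iff x y _).mp hzy
        have hyI : ∀ i ∈ I, y i = x i := by
          intro i hi
          by_contra hne
          have h1 := (hu i).2 hne
          have h2 := al_le x I hI (shift x I hI hN 1 z) hi
          linarith
        rw [hNc y hyI] at hy
        cases c <;> simp at hy
      · intro hb
        obtain ⟨i1, hi1, ha1⟩ := al_attained x I hI (shift x I hI hN 1 z)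
        refine ⟨fl x (fun i => i ∈ I ∧ su x (shift x I hI hN 1 z) i ≤ 0), ?_, ?_⟩
        · apply hIc
          · intro i hi
            apply fl_of_not
            exact fun h => hi h.1
          · apply fl_ne' x _ (i := i1)
            refine ⟨hi1, ?_⟩
            rw [← ha1, ha']; linarith
        · rw [mem_orth_iff x]
          intro i
          constructor
          · intro h
            have h1 := not_of_fl_eq x (fun i => i ∈ I ∧ su x (shift x I hI hN 1 z) i ≤ 0) h
            by_cases hi : i ∈ I
            · by_contra h2
              push Not at h2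
              exact h1 ⟨hi, h2.le⟩
            · have := be_le x I hN (shift x I hI hN 1 z) hi
              linarith
          · intro h
            exact (of_fl_ne x (fun i => i ∈ I ∧ su x (shift x I hI hN 1 z) i ≤ 0) h).2
    rw [e1, e2]

theorem claim2 (z : ι → ℝ) :
    z ∈ U (Function.update f x (!c)) c ↔ shift x I hI hN 1 z ∈ U f c := by
  rcases le_or_gt (al x I hI z + be x I hN z) 0 with hab | hab
  · have hs : ss x I hI hN z = 0 := max_eq_left hab
    have hz : shift x I hI hN 1 z = z := by
      funext i; simp [shift, hs]
    rw [hz]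
    constructor
    · rintro ⟨y, hy, hzy⟩
      have hyx : y ≠ x := by
        rintro rfl
        rw [upd_self hc hNc hIc] at hy
        cases c <;> simp at hy
      exact ⟨y, by rw [← upd_of_ne hc hNc hIc hyx]; exact hy, hzy⟩
    · rintro ⟨y, hy, hzy⟩
      by_cases hyx : y = x
      · subst hyx
        have hu := (mem_orth_iff y y z).mp hzy
        obtain ⟨i, hi, hai⟩ := al_attained y I hI z
        obtain ⟨j, hj, hbj⟩ := be_attained y I hN z
        have h1 := (hu i).1 rfl
        have h2 := (hu j).1 rfl
        have h3 : su y z j = 0 := by linarith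
        have hne : fl y (fun k => k = j) ≠ y := fl_ne' y _ (i := j) rfl
        refine ⟨fl y (fun k => k = j), ?_, ?_⟩
        · rw [upd_of_ne hc hNc hIc hne]
          apply hNc
          intro k hk
          apply fl_of_not
          rintro rfl; exact hj hk
        · rw [mem_orth_iff y]
          intro k
          refine ⟨fun _ => (hu k).1 rfl, fun hk => ?_⟩
          have : k = j := of_fl_ne y (fun k => k = j) hk
          rw [this, h3]
      · exact ⟨y, by rw [upd_of_ne hc hNc hIc hyx]; exact hy, hzy⟩
  · have hs : ss x I hI hN z = al x I hI z + be x I hN z := max_eq_right hab.le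
    have e1 : z ∈ U (Function.update f x (!c)) c ↔ be x I hN z ≤ 0 := by
      constructor
      · rintro ⟨y, hy, hzy⟩
        by_contra hb
        push Not at hb
        have hu := (mem_orth_iff x y z).mp hzy
        have hyx : y ≠ x := by
          rintro rfl
          rw [upd_self hc hNc hIc] at hy
          cases c <;> simp at hy
        have hyI : ∀ i, i ∉ I → y i = x i := by
          intro i hi
          by_contra hne
          have h1 := (hu i).2 hne
          have h2 := be_le x I hN z hi
          linarith
        rw [upd_of_ne hc hNc hIc hyx, hIc y hyI hyx] at hy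
        cases c <;> simp at hy
      · intro hb
        obtain ⟨j1, hj1, hb1⟩ := be_attained x I hN z
        have hyx : fl x (fun i => i ∉ I ∧ su x z i ≤ 0) ≠ x := by
          apply fl_ne' x _ (i := j1)
          exact ⟨hj1, by rw [← hb1]; exact hb⟩
        refine ⟨fl x (fun i => i ∉ I ∧ su x z i ≤ 0), ?_, ?_⟩
        · rw [upd_of_ne hc hNc hIc hyx]
          apply hNc
          intro i hi
          apply fl_of_not
          exact fun h => h.1 hi
        · rw [mem_orth_iff x]
          intro i
          constructor
          · intro h
            have h1 := not_of_fl_eq x (fun i => i ∉ I ∧ su x z i ≤ 0) h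
            by_cases hi : i ∈ I
            · have := al_le x I hI z hi
              linarith
            · by_contra h2
              push Not at h2
              exact h1 ⟨hi, h2.le⟩
          · intro h
            exact (of_fl_ne x (fun i => i ∉ I ∧ su x z i ≤ 0) h).2
    have e2 : shift x I hI hN 1 z ∈ U f c ↔ be x I hN z ≤ 0 := by
      have ha' := al_shift x I hI hN 1 z
      have hb' := be_shift x I hI hN 1 z
      rw [hs] at ha' hb'
      constructor
      · rintro ⟨y, hy, hzy⟩
        by_contra hb
        push Not at hb
        have hu := (mem_orth_iff x y _).mp hzy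
        obtain ⟨i1, hi1, ha1⟩ := al_attained x I hI (shift x I hI hN 1 z)
        have hyx : y ≠ x := by
          rintro rfl
          have := (hu i1).1 rfl
          linarith
        have hyI : ∀ i, i ∉ I → y i = x i := by
          intro i hi
          by_contra hne
          have h1 := (hu i).2 hne
          have h2 := be_le x I hN (shift x I hI hN 1 z) hi
          linarith
        rw [hIc y hyI hyx] at hy
        cases c <;> simp at hy
      · intro hb
        refine ⟨fl x (fun i => i ∉ I ∧ su x (shift x I hI hN 1 z) i < 0), ?_, ?_⟩
        · apply hNc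
          intro i hi
          apply fl_of_not
          exact fun h => h.1 hi
        · rw [mem_orth_iff x]
          intro i
          constructor
          · intro h
            have h1 := not_of_fl_eq x (fun i => i ∉ I ∧ su x (shift x I hI hN 1 z) i < 0) h
            by_cases hi : i ∈ I
            · have := al_le x I hI (shift x I hI hN 1 z) hi
              linarith
            · by_contra h2
              push Not at h2
              exact h1 ⟨hi, h2⟩
          · intro h
            exact (of_fl_ne x (fun i => i ∉ I ∧ su x (shift x I hI hN 1 z) i < 0) h).2.le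
    rw [e1, e2]

theorem claim (z : ι → ℝ) (b : Bool) :
    z ∈ U (Function.update f x (!c)) b ↔ Th x I hI hN z ∈ U f b := by
  have h1 := claim1 hI hN hc hNc hIc z
  have h2 := claim2 hI hN hc hNc hIc z
  cases b <;> cases c
  · exact h2
  · exact h1
  · exact h1
  · exact h2

include hI hN in
/-- **Flip lemma**: flipping an orthant along a free decomposition preserves goodness. -/
theorem Good.flip (hf : Good f) : Good (Function.update f x (!c)) := by
  obtain ⟨Ψ, i0, hh, hU⟩ := hf
  refine ⟨(Th x I hI hN).trans Ψ, i0, ?_, ?_⟩
  · intro t ht z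
    show Ψ (shift x I hI hN 1 (t • z)) = t • Ψ (shift x I hI hN 1 z)
    rw [shift_smul x I hI hN 1 t ht, hh t ht]
  · intro z
    rw [claim hI hN hc hNc hIc z true, claim hI hN hc hNc hIc z false]
    exact hU (Th x I hI hN z)

end

end Pool.Agent.Lib.MP_8f7fef_co
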