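import Mathlib

set_option autoImplicit false
set_option linter.unusedSectionVars false

namespace Pool.Agent.Lib.MP_8f7fef_co

/-- sign of a Boolean -/
def sg (b : Bool) : ℝ := if b then 1 else -1

theorem sg_mul_self (b : Bool) : sg b * sg b = 1 := by
  cases b <;> simp [sg]

theorem sg_not (b : Bool) : sg (!b) = - sg b := by
  cases b <;> simp [sg]

section
variable {ι : Type*}

/-- closed orthant of a sign vector -/
def orth (x : ι → Bool) : Set (ι → ℝ) := {z | ∀ i, 0 ≤ sg (x i) * z i}

/-- union of the closed orthants of colour `b` -/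
def U (f : (ι → Bool) → Bool) (b : Bool) : Set (ι → ℝ) := {z | ∃ x, f x = b ∧ z ∈ orth x}

/-- `f` is good: a positively homogeneous homeomorphism straightens the two colours to the two
closed half-spaces of a coordinate -/
def Good (f : (ι → Bool) → Bool) : Prop :=
  ∃ (Ψ : (ι → ℝ) ≃ₜ (ι → ℝ)) (i0 : ι), (∀ t : ℝ, 0 < t → ∀ z, Ψ (t • z) = t • Ψ z) ∧
    ∀ z, (z ∈ U f true ↔ 0 ≤ Ψ z i0) ∧ (z ∈ U f false ↔ Ψ z i0 ≤ 0)

end

section Base
variable {ι : Type*} [Fintype ι] [DecidableEq ι] [Nonempty ι]

/-- the smallest coordinate -/
noncomputable def mn (z : ι → ℝ) : ℝ := Finset.univ.inf' Finset.univ_nonempty z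

theorem mn_le (z : ι → ℝ) (i : ι) : mn z ≤ z i := Finset.inf'_le _ (Finset.mem_univ i)

theorem le_mn (z : ι → ℝ) (c : ℝ) : c ≤ mn z ↔ ∀ i, c ≤ z i := by
  unfold mn
  rw [Finset.le_inf'_iff]
  simp

theorem mn_attained (z : ι → ℝ) : ∃ i, mn z = z i := by
  obtain ⟨i, -, hi⟩ := Finset.exists_mem_eq_inf' (Finset.univ_nonempty (α := ι)) z
  exact ⟨i, hi⟩

theorem mn_add (z : ι → ℝ) (c : ℝ) : mn (fun i => z i + c) = mn z + c := by
  apply le_antisymm
  · obtain ⟨i, hi⟩ := mn_attained z
    rw [hi]
    exact mn_le _ i
  · rw [le_mn]
    intro i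
    have := mn_le z i
    linarith

theorem mn_smul (z : ι → ℝ) (t : ℝ) (ht : 0 < t) : mn (t • z) = t * mn z := by
  apply le_antisymm
  · obtain ⟨i, hi⟩ := mn_attained z
    rw [hi]
    exact mn_le _ i
  · rw [le_mn]
    intro i
    have := mn_le z i
    simp only [Pi.smul_apply, smul_eq_mul]
    exact mul_le_mul_of_nonneg_left this ht.le

theorem mn_continuous : Continuous (mn : (ι → ℝ) → ℝ) := by
  unfold mn
  apply Continuous.finset_inf'_apply
  intro i _
  exact continuous_apply i

/-- multiply each coordinate by a sign -/
def su (w : ι → Bool) (z : ι → ℝ) : ι → ℝ := fun i => sg (w i) * z i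

omit [Fintype ι] [DecidableEq ι] [Nonempty ι] in
theorem su_su (w : ι → Bool) (z : ι → ℝ) : su w (su w z) = z := by
  funext i
  simp only [su]
  rw [← mul_assoc, sg_mul_self, one_mul]

/-- the base homeomorphism for the indicator of one orthant -/
noncomputable def baseHomeo (w : ι → Bool) (i0 : ι) : (ι → ℝ) ≃ₜ (ι → ℝ) where
  toFun z := fun i => su w z i + (mn (su w z) - su w z i0)
  invFun v := su w (fun i => v i + (v i0 - mn v))
  left_inv z := by
    have h1 : mn (fun i => su w z i + (mn (su w z) - su w z i0)) =
        mn (su w z) + (mn (su w z) - su w z i0) := mn_add _ _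
    have h2 : (fun i => su w z i + (mn (su w z) - su w z i0) +
        (su w z i0 + (mn (su w z) - su w z i0) - mn (fun i => su w z i + (mn (su w z) - su w z i0)))) =
        su w z := by
      funext i
      rw [h1]; ring
    show su w (fun i => su w z i + (mn (su w z) - su w z i0) +
        (su w z i0 + (mn (su w z) - su w z i0) - mn (fun i => su w z i + (mn (su w z) - su w z i0)))) = z
    rw [h2, su_su]
  right_inv v := by
    simp only [su_su]
    funext i
    rw [mn_add]
    ring
  continuous_toFun := by
    have h1 : Continuous (fun z : ι → ℝ => su w z) := by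
      unfold su; fun_prop
    have h2 : Continuous (fun z : ι → ℝ => mn (su w z)) := mn_continuous.comp h1
    apply continuous_pi
    intro i
    exact ((continuous_apply i).comp h1).add (h2.sub ((continuous_apply i0).comp h1))
  continuous_invFun := by
    have h1 : Continuous (fun z : ι → ℝ => su w z) := by
      unfold su; fun_prop
    apply h1.comp
    apply continuous_pi
    intro i
    exact (continuous_apply i).add ((continuous_apply i0).sub mn_continuous)

theorem good_single (w : ι → Bool) : Good (fun x : ι → Bool => decide (x = w)) := by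
  obtain ⟨i0⟩ := ‹Nonempty ι›
  have : Nonempty ι := ⟨i0⟩
  refine ⟨baseHomeo w i0, i0, ?_, ?_⟩
  · intro t ht z
    funext i
    have h1 : su w (t • z) = t • su w z := by
      funext j
      simp only [su, Pi.smul_apply, smul_eq_mul]; ring
    show su w (t • z) i + (mn (su w (t • z)) - su w (t • z) i0) = t • (su w z i + (mn (su w z) - su w z i0))
    rw [h1, mn_smul _ _ ht]
    simp only [Pi.smul_apply, smul_eq_mul]; ring
  · intro z
    have hv : baseHomeo w i0 z i0 = mn (su w z) := by
      show su w z i0 + (mn (su w z) - su w z i0) = _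
      ring
    rw [hv]
    constructor
    · rw [le_mn]
      constructor
      · rintro ⟨x, hx, hz⟩
        have : x = w := by simpa using hx
        subst this
        exact hz
      · intro h
        exact ⟨w, by simp, h⟩
    · constructor
      · rintro ⟨x, hx, hz⟩
        have hne : x ≠ w := by simpa using hx
        obtain ⟨i, hi⟩ := Function.ne_iff.mp hne
        have h1 : x i = !(w i) := by
          cases hx : x i <;> cases hw : w i <;> simp_all
        have h2 := hz i
        rw [h1, sg_not] at h2
        have h3 := mn_le (su w z) i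
        simp only [su] at h3
        linarith
      · intro h
        obtain ⟨i, hi⟩ := mn_attained (su w z)
        refine ⟨fun j => if 0 < su w z j then w j else !(w j), ?_, ?_⟩
        · simp only [decide_eq_false_iff_not]
          intro heq
          have := congrFun heq i
          rw [if_neg (by rw [← hi]; linarith)] at this
          cases hw : w i <;> simp_all
        · intro j
          show 0 ≤ sg (if 0 < su w z j then w j else !(w j)) * z j
          split_ifs with h3
          · exact h3.le
          · rw [sg_not]
            simp only [su] at h3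
            linarith

/-- swapping the colours preserves goodness -/
theorem Good.compl {f : (ι → Bool) → Bool} (hf : Good f) : Good (fun x => !(f x)) := by
  obtain ⟨Ψ, i0, hh, hU⟩ := hf
  refine ⟨Ψ.trans (Homeomorph.neg _), i0, ?_, ?_⟩
  · intro t ht z
    simp only [Homeomorph.trans_apply, Homeomorph.coe_neg, hh t ht z]
    simp
  · intro z
    have h1 : z ∈ U (fun x => !(f x)) true ↔ z ∈ U f false := by
      simp [U]
    have h2 : z ∈ U (fun x => !(f x)) false ↔ z ∈ U f true := by
      simp [U]
    rw [h1, h2, (hU z).1, (hU z).2]
    simp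

end Base

end Pool.Agent.Lib.MP_8f7fef_co
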