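import Pool.Agent.Lib.MP_8f7fef_co.Mask

set_option autoImplicit false
set_option linter.unusedSectionVars false

namespace Pool.Agent.Lib.MP_8f7fef_co

variable {n : ℕ}

/-- check that a cell is locked -/
def okLock (n F H x J : ℕ) : Bool :=
  Nat.blt x (2 ^ n) && (Nat.beq (J &&& F) J && (!(Nat.beq (J &&& (J - 1)) 0) &&
    cond (H.testBit x)
      (Nat.beq ((cube n F J x &&& H) ||| 2 ^ (x ^^^ J)) (cube n F J x) && !(H.testBit (x ^^^ J)))
      (Nat.beq (cube n F J x &&& H) (2 ^ (x ^^^ J)))))

/-- the set of directions of a mask -/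
def dirs (n J : ℕ) : Finset (Fin n) := Finset.univ.filter (fun i : Fin n => J.testBit i = true)

theorem mem_dirs (J : ℕ) (i : Fin n) : i ∈ dirs n J ↔ J.testBit i = true := by
  simp [dirs]

theorem xr_vec (x J : ℕ) : xr (vec n x) (dirs n J) = vec n (x ^^^ J) := by
  funext i
  simp only [xr, mem_dirs, vec, Nat.testBit_xor]
  cases J.testBit i <;> cases x.testBit i <;> simp

theorem mask_hi (F J : ℕ) (hF : F = 2 ^ n - 1) (hJ : J &&& F = J) (j : ℕ) (hj : n ≤ j) :
    J.testBit j = false := by
  rw [← hJ, hF, Nat.testBit_and, Nat.testBit_two_pow_sub_one]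
  have : ¬ j < n := by omega
  simp [this]

theorem two_le_card_dirs (F J : ℕ) (hF : F = 2 ^ n - 1) (hJ : J &&& F = J) (h : J &&& (J - 1) ≠ 0) :
    2 ≤ (dirs n J).card := by
  by_contra hcon
  have h1 : (dirs n J).card = 0 ∨ (dirs n J).card = 1 := by omega
  apply h
  rcases h1 with h1 | h1
  · have h2 : J = 0 := by
      rw [Finset.card_eq_zero] at h1
      apply Nat.eq_of_testBit_eq
      intro j
      rw [Nat.zero_testBit]
      by_cases hj : j < n
      · by_contra hc
        have : (⟨j, hj⟩ : Fin n) ∈ dirs n J := by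
          rw [mem_dirs]
          exact Bool.eq_true_of_not_eq_false hc
        rw [h1] at this
        simp at this
      · exact mask_hi F J hF hJ j (by omega)
    rw [h2, Nat.zero_and]
  · obtain ⟨i, hi⟩ := Finset.card_eq_one.mp h1
    have h2 : J = 2 ^ (i : ℕ) := by
      apply Nat.eq_of_testBit_eq
      intro j
      rw [Nat.testBit_two_pow]
      by_cases hj : j < n
      · have h3 := mem_dirs (n := n) J ⟨j, hj⟩
        rw [hi, Finset.mem_singleton] at h3
        by_cases hji : (i : ℕ) = j
        · have : (⟨j, hj⟩ : Fin n) = i := Fin.ext hji.symm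
          simp only [hji, decide_true]
          exact h3.mp this
        · have h4 : ¬ (⟨j, hj⟩ : Fin n) = i := fun h => hji (by rw [← h])
          simp only [hji, decide_false]
          by_contra hc
          exact h4 (h3.mpr (Bool.eq_true_of_not_eq_false hc))
      · have h5 : (i : ℕ) ≠ j := by have := i.2; omega
        simp only [h5, decide_false]
        exact mask_hi F J hF hJ j (by omega)
    rw [h2]
    apply Nat.eq_of_testBit_eq
    intro j
    rw [Nat.testBit_and, Nat.testBit_two_pow, Nat.testBit_two_pow_sub_one, Nat.zero_testBit]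
    by_cases hji : (i : ℕ) = j
    · simp [hji]
    · simp [hji]

theorem okLock_sound (F H x J : ℕ) (hF : F = 2 ^ n - 1) (h : okLock n F H x J = true) :
    x < 2 ^ n ∧ Locked (fn n H) (vec n x) := by
  classical
  simp only [okLock, Bool.and_eq_true, Bool.not_eq_true', Nat.blt_eq, Nat.beq_eq] at h
  obtain ⟨hx, hJF, hJ2, hc⟩ := h
  refine ⟨hx, ?_⟩
  have hJ2' : J &&& (J - 1) ≠ 0 := by
    intro h; rw [h] at hJ2; simp at hJ2
  have hcard := two_le_card_dirs F J hF hJF hJ2'
  have hJlt : J < 2 ^ n := by
    have : J ≤ F := by rw [← hJF]; exact Nat.and_le_right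
    have h2 : 0 < 2 ^ n := by positivity
    omega
  have hxJ : x ^^^ J < 2 ^ n := Nat.xor_lt_two_pow hx hJlt
  have hne : ∀ K, K ⊂ dirs n J → code (xr (vec n x) K) ≠ x ^^^ J := by
    intro K hK heq
    rw [← code_vec (n := n) (x ^^^ J) hxJ, ← xr_vec] at heq
    have h1 := code_injective heq
    apply hK.2
    intro i hi
    by_contra hiK
    have h2 := congrFun h1 i
    simp only [xr, hi, hiK, if_true, if_false] at h2
    cases hv : vec n x i <;> simp [hv] at h2
  have hin : ∀ K, K ⊆ dirs n J → (cube n F J x).testBit (code (xr (vec n x) K)) = true := by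
    intro K hK
    apply cube_sound F J x hF hx
    intro i hi
    have : i ∉ K := by
      intro h
      have := (mem_dirs J i).mp (hK h)
      rw [hi] at this
      exact absurd this (by simp)
    simp [xr, this]
  have hx0 : fn n H (vec n x) = H.testBit x := by simp only [fn, code_vec x hx]
  have hxJ0 : fn n H (xr (vec n x) (dirs n J)) = H.testBit (x ^^^ J) := by
    rw [xr_vec]; simp only [fn, code_vec _ hxJ]
  refine ⟨dirs n J, hcard, ?_, ?_⟩
  · rw [hx0, hxJ0]
    cases hH : H.testBit x
    · rw [hH] at hc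
      simp only [cond_false, Nat.beq_eq] at hc
      have h1 : (cube n F J x &&& H).testBit (x ^^^ J) = true := by
        rw [hc, Nat.testBit_two_pow]; simp
      rw [Nat.testBit_and, Bool.and_eq_true] at h1
      rw [h1.2]; simp
    · rw [hH] at hc
      simp only [cond_true, Bool.and_eq_true, Nat.beq_eq, Bool.not_eq_true'] at hc
      rw [hc.2]; simp
  · intro K hK
    rw [hx0]
    show H.testBit (code (xr (vec n x) K)) = _
    have h1 := hin K hK.1
    have h2 := hne K hK
    cases hH : H.testBit x
    · rw [hH] at hc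
      simp only [cond_false, Nat.beq_eq] at hc
      have h3 : (cube n F J x &&& H).testBit (code (xr (vec n x) K)) = false := by
        rw [hc, Nat.testBit_two_pow]; simp [Ne.symm h2]
      rw [Nat.testBit_and, h1, Bool.true_and] at h3
      exact h3
    · rw [hH] at hc
      simp only [cond_true, Bool.and_eq_true, Nat.beq_eq, Bool.not_eq_true'] at hc
      have h3 : ((cube n F J x &&& H) ||| 2 ^ (x ^^^ J)).testBit (code (xr (vec n x) K)) = true := by
        rw [hc.1]; exact h1
      rw [Nat.testBit_or, Nat.testBit_and, h1, Nat.testBit_two_pow] at h3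
      simpa [Ne.symm h2] using h3

/-- check of all locks -/
def lockAll (n F H : ℕ) : List (ℕ × ℕ) → ℕ → Bool
  | [], R => Nat.beq R 0
  | p :: t, R => okLock n F H p.1 p.2 && lockAll n F H t (R ^^^ 2 ^ p.1)

theorem lockAll_sound (F H : ℕ) (hF : F = 2 ^ n - 1) (l : List (ℕ × ℕ)) (R : ℕ)
    (h : lockAll n F H l R = true) (y : Fin n → Bool) (hy : R.testBit (code y) = true) :
    Locked (fn n H) y := by
  induction l generalizing R with
  | nil =>
    simp only [lockAll, Nat.beq_eq] at h
    rw [h, Nat.zero_testBit] at hy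
    exact absurd hy (by simp)
  | cons p t ih =>
    simp only [lockAll, Bool.and_eq_true] at h
    obtain ⟨hp, hl⟩ := okLock_sound F H p.1 p.2 hF h.1
    by_cases hc : code y = p.1
    · have : y = vec n p.1 := by
        apply code_injective
        rw [code_vec _ hp, hc]
      rw [this]; exact hl
    · apply ih _ h.2
      rw [Nat.testBit_xor, hy, Nat.testBit_two_pow]
      simp [Ne.symm hc]

/-- check that a cell is locked or sensitive at a coordinate with value `true` -/
def okG (n F H x J : ℕ) : Bool :=
  okLock n F H x J || (Nat.blt x (2 ^ n) && (Nat.blt J n && (x.testBit J && (H.testBit (x ^^^ 2 ^ J) != H.testBit x))))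

theorem okG_sound (F H x J : ℕ) (hF : F = 2 ^ n - 1) (h : okG n F H x J = true) :
    x < 2 ^ n ∧ (Locked (fn n H) (vec n x) ∨
      ∃ i, fn n H (xr (vec n x) {i}) ≠ fn n H (vec n x) ∧ vec n x i = true) := by
  simp only [okG, Bool.or_eq_true, Bool.and_eq_true, Nat.blt_eq, bne_iff_ne] at h
  rcases h with h | ⟨hx, hJ, hb, hne⟩
  · obtain ⟨h1, h2⟩ := okLock_sound F H x J hF h
    exact ⟨h1, Or.inl h2⟩
  · refine ⟨hx, Or.inr ⟨⟨J, hJ⟩, ?_, hb⟩⟩
    have h1 : xr (vec n x) {(⟨J, hJ⟩ : Fin n)} = vec n (x ^^^ 2 ^ J) := by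
      rw [← xr_vec]
      congr 1
      ext i
      rw [mem_dirs, Nat.testBit_two_pow, Finset.mem_singleton]
      constructor
      · rintro rfl; simp
      · intro h
        apply Fin.ext
        exact (of_decide_eq_true h).symm
    have h2 : x ^^^ 2 ^ J < 2 ^ n := Nat.xor_lt_two_pow hx (Nat.pow_lt_pow_right (by norm_num) hJ)
    rw [h1]
    simp only [fn, code_vec x hx, code_vec _ h2]
    exact hne

/-- check of all cells -/
def gAll (n F H : ℕ) : List (ℕ × ℕ) → ℕ → Bool
  | [], R => Nat.beq R 0
  | p :: t, R => okG n F H p.1 p.2 && gAll n F H t (R ^^^ 2 ^ p.1)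

theorem gAll_sound (F H : ℕ) (hF : F = 2 ^ n - 1) (l : List (ℕ × ℕ)) (R : ℕ)
    (h : gAll n F H l R = true) (y : Fin n → Bool) (hy : R.testBit (code y) = true) :
    Locked (fn n H) y ∨ ∃ i, fn n H (xr y {i}) ≠ fn n H y ∧ y i = true := by
  induction l generalizing R with
  | nil =>
    simp only [gAll, Nat.beq_eq] at h
    rw [h, Nat.zero_testBit] at hy
    exact absurd hy (by simp)
  | cons p t ih =>
    simp only [gAll, Bool.and_eq_true] at h
    obtain ⟨hp, hl⟩ := okG_sound F H p.1 p.2 hF h.1
    by_cases hc : code y = p.1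
    · have : y = vec n p.1 := by
        apply code_injective
        rw [code_vec _ hp, hc]
      rw [this]; exact hl
    · apply ih _ h.2
      rw [Nat.testBit_xor, hy, Nat.testBit_two_pow]
      simp [Ne.symm hc]

theorem code_lt (x : Fin n → Bool) : code x < 2 ^ n := by
  induction n with
  | zero => simp [code]
  | succ n ih =>
    rw [code_succ, pow_succ]
    have := ih (fun i => x i.succ)
    split_ifs <;> omega

end Pool.Agent.Lib.MP_8f7fef_co
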