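import Pool.Agent.Lib.MP_8f7fef_co.Comp

set_option autoImplicit false
set_option linter.unusedSectionVars false

namespace Pool.Agent.Lib.MP_8f7fef_co

variable {n : ℕ}

/-- the code of a bit vector -/
def code (x : Fin n → Bool) : ℕ := ∑ i : Fin n, (if x i = true then 2 ^ (i : ℕ) else 0)

/-- the bit vector of a number -/
def vec (n : ℕ) (b : ℕ) : Fin n → Bool := fun i => b.testBit i

/-- the Boolean function of a mask -/
def fn (n : ℕ) (H : ℕ) : (Fin n → Bool) → Bool := fun x => H.testBit (code x)

theorem code_succ (x : Fin (n + 1) → Bool) :
    code x = (if x 0 = true then 1 else 0) + 2 * code (fun i : Fin n => x i.succ) := by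
  unfold code
  rw [Fin.sum_univ_succ, Finset.mul_sum]
  congr 1
  apply Finset.sum_congr rfl
  intro i _
  split_ifs
  · simp [pow_succ]; ring
  · simp

theorem code_injective : Function.Injective (code : (Fin n → Bool) → ℕ) := by
  induction n with
  | zero => intro x y _; funext i; exact i.elim0
  | succ n ih =>
    intro x y h
    rw [code_succ, code_succ] at h
    have h0 : x 0 = y 0 := by
      cases hx : x 0 <;> cases hy : y 0 <;> simp [hx, hy] at h ⊢ <;> omega
    have h1 : (fun i : Fin n => x i.succ) = (fun i : Fin n => y i.succ) := by
      apply ih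
      rw [h0] at h
      omega
    funext i
    refine Fin.cases h0 (fun j => ?_) i
    exact congrFun h1 j

theorem code_vec (b : ℕ) (hb : b < 2 ^ n) : code (vec n b) = b := by
  induction n generalizing b with
  | zero =>
    simp at hb
    subst hb
    simp [code]
  | succ n ih =>
    rw [code_succ]
    have h1 : (fun i : Fin n => vec (n + 1) b i.succ) = vec n (b / 2) := by
      funext i
      simp [vec, Nat.testBit_succ]
    rw [h1, ih (b / 2) (by rw [pow_succ] at hb; omega)]
    have h2 : vec (n + 1) b 0 = decide (b % 2 = 1) := by
      simp [vec, Nat.testBit_zero]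
    rw [h2]
    by_cases h : b % 2 = 1
    · simp [h]; omega
    · simp [h]; omega

theorem code_update_false (y : Fin n → Bool) (i : Fin n) (hi : y i = true) :
    code y = code (Function.update y i false) + 2 ^ (i : ℕ) := by
  unfold code
  rw [← Finset.add_sum_erase Finset.univ _ (Finset.mem_univ i),
    ← Finset.add_sum_erase Finset.univ (fun j => if Function.update y i false j = true then 2 ^ (j : ℕ) else 0) (Finset.mem_univ i)]
  simp only [hi, if_true, Function.update_self, Bool.false_eq_true, if_false, zero_add]
  rw [add_comm]
  congr 1
  apply Finset.sum_congr rfl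
  intro j hj
  rw [Function.update_of_ne (Finset.ne_of_mem_erase hj)]

/-- mask of a cube -/
def go : ℕ → ℕ → ℕ → ℕ
  | 0, _, m => m
  | k + 1, D, m => go k D (cond (D.testBit k) (m ||| (m <<< 2 ^ k)) m)

/-- zero the coordinates of `D` below `k` -/
def zer (D k : ℕ) (y : Fin n → Bool) : Fin n → Bool := fun i => if (i : ℕ) < k ∧ D.testBit i = true then false else y i

theorem go_sound (D : ℕ) (k : ℕ) (hk : k ≤ n) (m : ℕ) (y : Fin n → Bool)
    (h : m.testBit (code (zer D k y)) = true) : (go k D m).testBit (code y) = true := by
  induction k generalizing m with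
  | zero =>
    have : zer D 0 y = y := by funext i; simp [zer]
    rw [this] at h
    exact h
  | succ k ih =>
    rw [go]
    apply ih (by omega)
    set i : Fin n := ⟨k, by omega⟩ with hi
    cases hD : D.testBit k
    · have : zer D (k + 1) y = zer D k y := by
        funext j
        simp only [zer]
        by_cases hj : (j : ℕ) = k
        · simp [hj, hD]
        · have : (j : ℕ) < k + 1 ↔ (j : ℕ) < k := by omega
          simp only [this]
      rw [this] at h
      simpa [hD] using h
    · have h1 : zer D (k + 1) y = Function.update (zer D k y) i false := by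
        funext j
        by_cases hj : j = i
        · subst hj
          rw [Function.update_self]
          simp [zer, hi, hD]
        · rw [Function.update_of_ne hj]
          have hj' : (j : ℕ) ≠ k := fun h => hj (Fin.ext h)
          simp only [zer]
          have : (j : ℕ) < k + 1 ↔ (j : ℕ) < k := by omega
          simp only [this]
      simp only [cond_true]
      rw [Nat.testBit_or]
      cases hy : y i
      · have h2 : zer D (k + 1) y = zer D k y := by
          rw [h1]
          funext j
          by_cases hj : j = i
          · subst hj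
            rw [Function.update_self]
            simp [zer, hy]
          · rw [Function.update_of_ne hj]
        rw [h2] at h
        simp [h]
      · have h2 : zer D k y i = true := by simp [zer, hi]; exact hy
        have h3 := code_update_false _ i h2
        rw [← h1] at h3
        rw [h3, Nat.testBit_shiftLeft]
        have h4 : code (zer D (k + 1) y) + 2 ^ (i : ℕ) - 2 ^ k = code (zer D (k + 1) y) := by
          simp [hi]
        rw [h4, h]
        simp [hi]

/-- mask of the cube through `x` in the directions `D` -/
def cube (n F D x : ℕ) : ℕ := go n D (2 ^ (x &&& (F ^^^ D)))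

theorem vec_and_xor (F D x : ℕ) (hF : F = 2 ^ n - 1) :
    vec n (x &&& (F ^^^ D)) = zer D n (vec n x) := by
  funext i
  simp only [vec, zer, Nat.testBit_and, Nat.testBit_xor, hF, Nat.testBit_two_pow_sub_one, i.2, true_and, decide_true]
  cases D.testBit i <;> cases x.testBit i <;> simp

theorem cube_sound (F D x : ℕ) (hF : F = 2 ^ n - 1) (hx : x < 2 ^ n) (y : Fin n → Bool)
    (hy : ∀ i : Fin n, D.testBit i = false → y i = vec n x i) :
    (cube n F D x).testBit (code y) = true := by
  apply go_sound D n le_rfl
  have h1 : zer D n y = vec n (x &&& (F ^^^ D)) := by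
    rw [vec_and_xor F D x hF]
    funext i
    simp only [zer, i.2, true_and]
    cases hD : D.testBit i
    · simpa using hy i hD
    · simp
  rw [h1, code_vec _ (lt_of_le_of_lt Nat.and_le_left hx), Nat.testBit_two_pow]
  simp

/-- check that a cell may be flipped -/
def okFlip (n F H x N : ℕ) : Bool :=
  Nat.blt x (2 ^ n) && (Nat.beq (N &&& F) N && (!(Nat.beq N 0) && (!(Nat.beq N F) &&
    cond (H.testBit x)
      (Nat.beq (cube n F N x &&& H) (cube n F N x) && Nat.beq (cube n F (F ^^^ N) x &&& H) (2 ^ x))
      (Nat.beq (cube n F N x &&& H) 0 &&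
        Nat.beq ((cube n F (F ^^^ N) x &&& H) ||| 2 ^ x) (cube n F (F ^^^ N) x ||| 2 ^ x)))))

theorem fn_flip (H x : ℕ) (hx : x < 2 ^ n) :
    Function.update (fn n H) (vec n x) (!(fn n H (vec n x))) = fn n (H ^^^ 2 ^ x) := by
  funext y
  by_cases hy : y = vec n x
  · subst hy
    rw [Function.update_self]
    simp only [fn, Nat.testBit_xor, Nat.testBit_two_pow, code_vec x hx]
    cases H.testBit x <;> simp
  · rw [Function.update_of_ne hy]
    have h1 : code y ≠ x := by
      intro h
      apply hy
      apply code_injective
      rw [code_vec x hx, h]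
    simp only [fn, Nat.testBit_xor, Nat.testBit_two_pow]
    simp [Ne.symm h1]

theorem okFlip_sound (F H x N : ℕ) (hF : F = 2 ^ n - 1) (h : okFlip n F H x N = true)
    (hg : Good (fn n H)) : Good (fn n (H ^^^ 2 ^ x)) := by
  classical
  simp only [okFlip, Bool.and_eq_true, Bool.not_eq_true', Nat.blt_eq, Nat.beq_eq] at h
  obtain ⟨hx, hNF, hN0, hN1, hc⟩ := h
  have hN0' : N ≠ 0 := by
    intro h; rw [h] at hN0; simp at hN0
  have hN1' : N ≠ F := by
    intro h; rw [h] at hN1; simp at hN1
  rw [← fn_flip H x hx]
  set I : Finset (Fin n) := Finset.univ.filter (fun i : Fin n => N.testBit i = false) with hI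
  have hNhi : ∀ j, n ≤ j → N.testBit j = false := by
    intro j hj
    rw [← hNF, hF, Nat.testBit_and, Nat.testBit_two_pow_sub_one]
    have : ¬ j < n := by omega
    simp [this]
  have hInon : I.Nonempty := by
    by_contra hcon
    rw [Finset.not_nonempty_iff_eq_empty] at hcon
    apply hN1'
    apply Nat.eq_of_testBit_eq
    intro j
    rw [hF, Nat.testBit_two_pow_sub_one]
    by_cases hj : j < n
    · simp only [hj, decide_true]
      by_contra hcon2
      have : (⟨j, hj⟩ : Fin n) ∈ I := by
        simp only [hI, Finset.mem_filter, Finset.mem_univ, true_and]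
        simpa using hcon2
      rw [hcon] at this
      simp at this
    · simp only [hj, decide_false]
      exact hNhi j (by omega)
  have hNnon : Iᶜ.Nonempty := by
    by_contra hcon
    rw [Finset.not_nonempty_iff_eq_empty] at hcon
    apply hN0'
    apply Nat.eq_of_testBit_eq
    intro j
    rw [Nat.zero_testBit]
    by_cases hj : j < n
    · by_contra hcon2
      have : (⟨j, hj⟩ : Fin n) ∈ Iᶜ := by
        simp only [hI, Finset.mem_compl, Finset.mem_filter, Finset.mem_univ, true_and]
        exact hcon2
      rw [hcon] at this
      simp at this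
    · exact hNhi j (by omega)
  have hcubeN : ∀ y : Fin n → Bool, (∀ i ∈ I, y i = vec n x i) → (cube n F N x).testBit (code y) = true := by
    intro y hy
    apply cube_sound F N x hF hx
    intro i hi
    exact hy i (by simp [hI, hi])
  have hcubeI : ∀ y : Fin n → Bool, (∀ i, i ∉ I → y i = vec n x i) →
      (cube n F (F ^^^ N) x).testBit (code y) = true := by
    intro y hy
    apply cube_sound F (F ^^^ N) x hF hx
    intro i hi
    apply hy i
    rw [Nat.testBit_xor, hF, Nat.testBit_two_pow_sub_one] at hi
    simp only [i.2, decide_true] at hi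
    simp only [hI, Finset.mem_filter, Finset.mem_univ, true_and]
    intro h
    rw [h] at hi
    simp at hi
  have hxx : code (vec n x) = x := code_vec x hx
  cases hH : H.testBit x
  · -- white cell
    rw [hH] at hc
    simp only [cond_false, Bool.and_eq_true, Nat.beq_eq] at hc
    have hcol : fn n H (vec n x) = false := by simp only [fn, hxx, hH]
    rw [hcol]
    apply Good.flip hInon hNnon hcol _ _ hg
    · intro y hy
      have h1 := hcubeN y hy
      have h2 : (cube n F N x &&& H).testBit (code y) = false := by rw [hc.1, Nat.zero_testBit]
      rw [Nat.testBit_and, h1, Bool.true_and] at h2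
      exact h2
    · intro y hy hne
      have h1 := hcubeI y hy
      have h3 : code y ≠ x := by
        intro h; apply hne; apply code_injective; rw [hxx, h]
      have h2 : ((cube n F (F ^^^ N) x &&& H) ||| 2 ^ x).testBit (code y) = true := by
        rw [hc.2, Nat.testBit_or, h1, Bool.true_or]
      rw [Nat.testBit_or, Nat.testBit_and, h1, Nat.testBit_two_pow] at h2
      simp only [Ne.symm h3, decide_false, Bool.or_false, Bool.true_and] at h2
      simpa [fn] using h2
  · rw [hH] at hc
    simp only [cond_true, Bool.and_eq_true, Nat.beq_eq] at hc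
    have hcol : fn n H (vec n x) = true := by simp only [fn, hxx, hH]
    rw [hcol]
    apply Good.flip hInon hNnon hcol _ _ hg
    · intro y hy
      have h1 := hcubeN y hy
      have h2 : (cube n F N x &&& H).testBit (code y) = true := by rw [hc.1]; exact h1
      rw [Nat.testBit_and, h1, Bool.true_and] at h2
      exact h2
    · intro y hy hne
      have h1 := hcubeI y hy
      have h3 : code y ≠ x := by
        intro h; apply hne; apply code_injective; rw [hxx, h]
      have h2 : (cube n F (F ^^^ N) x &&& H).testBit (code y) = false := by
        rw [hc.2, Nat.testBit_two_pow]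
        simp [Ne.symm h3]
      rw [Nat.testBit_and, h1, Bool.true_and] at h2
      simpa [fn] using h2

/-- check of a chain of flips -/
def chain (n F : ℕ) : List (ℕ × ℕ) → ℕ → ℕ → Bool
  | [], H, H' => Nat.beq H H'
  | p :: t, H, H' => okFlip n F H p.1 p.2 && chain n F t (H ^^^ 2 ^ p.1) H'

theorem chain_sound (F : ℕ) (hF : F = 2 ^ n - 1) (l : List (ℕ × ℕ)) (H H' : ℕ)
    (h : chain n F l H H' = true) (hg : Good (fn n H)) : Good (fn n H') := by
  induction l generalizing H with
  | nil =>
    simp only [chain, Nat.beq_eq] at h
    rw [← h]; exact hg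
  | cons p t ih =>
    simp only [chain, Bool.and_eq_true] at h
    exact ih _ h.2 (okFlip_sound F H p.1 p.2 hF h.1 hg)

/-- the single cell -/
theorem good_fn_single (hn : 0 < n) (w : ℕ) (hw : w < 2 ^ n) : Good (fn n (2 ^ w)) := by
  classical
  have : Nonempty (Fin n) := ⟨⟨0, hn⟩⟩
  have h1 : fn n (2 ^ w) = fun x => decide (x = vec n w) := by
    funext x
    simp only [fn, Nat.testBit_two_pow]
    by_cases hx : x = vec n w
    · subst hx; simp [code_vec w hw]
    · have : w ≠ code x := by
        intro h
        apply hx
        apply code_injective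
        rw [code_vec w hw, h]
      simp [hx, this]
  rw [h1]
  exact good_single _

/-- everything but a single cell -/
theorem good_fn_cosingle (hn : 0 < n) (w : ℕ) (hw : w < 2 ^ n) :
    Good (fn n ((2 ^ 2 ^ n - 1) ^^^ 2 ^ w)) := by
  classical
  have : Nonempty (Fin n) := ⟨⟨0, hn⟩⟩
  have h2 : ∀ x : Fin n → Bool, code x < 2 ^ n := by
    intro x
    clear hn hw w this
    induction n with
    | zero => simp [code]
    | succ n ih =>
      rw [code_succ, pow_succ]
      have := ih (fun i => x i.succ)
      split_ifs <;> omega
  have h1 : fn n ((2 ^ 2 ^ n - 1) ^^^ 2 ^ w) = fun x => !(decide (x = vec n w)) := by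
    funext x
    simp only [fn, Nat.testBit_two_pow, Nat.testBit_xor, Nat.testBit_two_pow_sub_one, h2 x, decide_true]
    by_cases hx : x = vec n w
    · subst hx; simp [code_vec w hw]
    · have : w ≠ code x := by
        intro h
        apply hx
        apply code_injective
        rw [code_vec w hw, h]
      simp [hx, this]
  rw [h1]
  exact (good_single _).compl

end Pool.Agent.Lib.MP_8f7fef_co
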