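import Pool.Agent.Lib.MP_8f7fef_co.Sing

set_option autoImplicit false
set_option linter.unusedSectionVars false

open Metric Topology

namespace Pool.Agent.Lib.MP_8f7fef_co

variable {n : ℕ}

/-- insert a zero coordinate -/
def vv (j0 : Fin (n + 1)) (w : EuclideanSpace ℝ (Fin n)) : Fin (n + 1) → ℝ :=
  j0.insertNth (α := fun _ => ℝ) (0 : ℝ) (fun k => w k)

theorem vv_same (j0 : Fin (n + 1)) (w : EuclideanSpace ℝ (Fin n)) : vv j0 w j0 = 0 := by
  simp [vv]

theorem vv_succ (j0 : Fin (n + 1)) (w : EuclideanSpace ℝ (Fin n)) (k : Fin n) :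
    vv j0 w (j0.succAbove k) = w k := by
  simp [vv]

theorem vv_continuous (j0 : Fin (n + 1)) : Continuous (vv j0 : EuclideanSpace ℝ (Fin n) → _) := by
  apply continuous_pi
  intro i
  by_cases h : i = j0
  · subst h
    simp only [vv_same]
    exact continuous_const
  · obtain ⟨k, rfl⟩ := Fin.exists_succAbove_eq h
    simp only [vv_succ]
    fun_prop

theorem vv_injective (j0 : Fin (n + 1)) : Function.Injective (vv j0 : EuclideanSpace ℝ (Fin n) → _) := by
  intro a b hab
  ext k
  rw [← vv_succ j0 a k, ← vv_succ j0 b k, hab]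

section
variable (x : Fin (n + 1) → Bool) (J : Finset (Fin (n + 1))) (j0 : Fin (n + 1)) (hj0 : j0 ∈ J)

/-- the minimum over `J` -/
noncomputable def mJ (v : Fin (n + 1) → ℝ) : ℝ := J.inf' ⟨j0, hj0⟩ v

theorem mJ_continuous : Continuous (mJ J j0 hj0) := by
  unfold mJ
  apply Continuous.finset_inf'_apply
  intro i _
  exact continuous_apply i

/-- parametrisation of the sheet -/
noncomputable def phi (w : EuclideanSpace ℝ (Fin n)) : Fin (n + 1) → ℝ :=
  fun i => if i ∈ J then sg (x i) * (vv j0 w i - mJ J j0 hj0 (vv j0 w)) else ctr x J i + vv j0 w i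

theorem phi_continuous : Continuous (phi x J j0 hj0) := by
  apply continuous_pi
  intro i
  have h1 := vv_continuous j0 (n := n)
  have h2 : Continuous (fun w : EuclideanSpace ℝ (Fin n) => vv j0 w i) := (continuous_apply i).comp h1
  have h3 : Continuous (fun w : EuclideanSpace ℝ (Fin n) => mJ J j0 hj0 (vv j0 w)) :=
    (mJ_continuous J j0 hj0).comp h1
  unfold phi
  by_cases hi : i ∈ J
  · simp only [hi, if_true]
    exact continuous_const.mul (h2.sub h3)
  · simp only [hi, if_false]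
    exact continuous_const.add h2

theorem phi_mem (w : EuclideanSpace ℝ (Fin n)) {i : Fin (n + 1)} (hi : i ∈ J) :
    phi x J j0 hj0 w i = sg (x i) * (vv j0 w i - mJ J j0 hj0 (vv j0 w)) := by
  simp [phi, hi]

theorem phi_notMem (w : EuclideanSpace ℝ (Fin n)) {i : Fin (n + 1)} (hi : i ∉ J) :
    phi x J j0 hj0 w i = ctr x J i + vv j0 w i := by
  simp [phi, hi]

theorem su_phi (w : EuclideanSpace ℝ (Fin n)) {i : Fin (n + 1)} (hi : i ∈ J) :
    su x (phi x J j0 hj0 w) i = vv j0 w i - mJ J j0 hj0 (vv j0 w) := by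
  simp only [su]
  rw [phi_mem x J j0 hj0 w hi, ← mul_assoc, sg_mul_self, one_mul]

theorem su_phi_nonneg (w : EuclideanSpace ℝ (Fin n)) {i : Fin (n + 1)} (hi : i ∈ J) :
    0 ≤ su x (phi x J j0 hj0 w) i := by
  rw [su_phi x J j0 hj0 w hi]
  have : mJ J j0 hj0 (vv j0 w) ≤ vv j0 w i := Finset.inf'_le _ hi
  linarith

theorem su_phi_zero (w : EuclideanSpace ℝ (Fin n)) : ∃ i ∈ J, su x (phi x J j0 hj0 w) i = 0 := by
  obtain ⟨i, hi, h⟩ := Finset.exists_mem_eq_inf' (⟨j0, hj0⟩ : J.Nonempty) (vv j0 w)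
  refine ⟨i, hi, ?_⟩
  rw [su_phi x J j0 hj0 w hi]
  have : mJ J j0 hj0 (vv j0 w) = vv j0 w i := h
  linarith

theorem phi_injective : Function.Injective (phi x J j0 hj0) := by
  intro a b hab
  apply vv_injective j0
  have hm : mJ J j0 hj0 (vv j0 a) = mJ J j0 hj0 (vv j0 b) := by
    have h1 := su_phi x J j0 hj0 a hj0
    have h2 := su_phi x J j0 hj0 b hj0
    rw [hab, h2, vv_same, vv_same] at h1
    linarith
  funext i
  by_cases hi : i ∈ J
  · have h1 := su_phi x J j0 hj0 a hi
    have h2 := su_phi x J j0 hj0 b hi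
    rw [hab, h2, hm] at h1
    linarith
  · have h1 := phi_notMem x J j0 hj0 a hi
    have h2 := phi_notMem x J j0 hj0 b hi
    rw [hab, h2] at h1
    linarith

theorem phi_zero : phi x J j0 hj0 0 = ctr x J := by
  have hv : vv j0 (0 : EuclideanSpace ℝ (Fin n)) = 0 := by
    funext i
    by_cases h : i = j0
    · subst h; rw [vv_same]; rfl
    · obtain ⟨k, rfl⟩ := Fin.exists_succAbove_eq h
      rw [vv_succ]; rfl
  have hm : mJ J j0 hj0 (0 : Fin (n + 1) → ℝ) = 0 := by
    unfold mJ
    apply le_antisymm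
    · exact Finset.inf'_le _ hj0
    · exact Finset.le_inf' _ _ fun i _ => le_rfl
  funext i
  by_cases hi : i ∈ J
  · rw [phi_mem x J j0 hj0 0 hi, hv, hm]
    simp [ctr, hi]
  · rw [phi_notMem x J j0 hj0 0 hi, hv]
    simp

end

/-- **A configuration with an antipodal pattern is not an animal.** -/
theorem not_PP_of_antip (hn : 0 < n) (S : Finset (Fin (n + 1) → ℤ)) (x : Fin (n + 1) → Bool)
    (J : Finset (Fin (n + 1))) (hJ : 2 ≤ J.card) (c : Bool) (hA : Antip S x J c) : ¬ PP S := by
  rintro ⟨e⟩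
  obtain ⟨j0, hj0⟩ : J.Nonempty := Finset.card_pos.mp (by omega)
  obtain ⟨j1, hj1, hne⟩ : ∃ j1 ∈ J, j1 ≠ j0 := by
    by_contra hcon
    push Not at hcon
    have : J ⊆ {j0} := by
      intro k hk; simpa using hcon k hk
    have := Finset.card_le_card this
    simp at this
    omega
  -- radius
  have hev : ∀ᶠ w in 𝓝 (0 : EuclideanSpace ℝ (Fin n)), ‖phi x J j0 hj0 w - ctr x J‖ < 1 / 2 := by
    have h1 : ContinuousAt (fun w => ‖phi x J j0 hj0 w - ctr x J‖) 0 :=
      ((phi_continuous x J j0 hj0).sub continuous_const).norm.continuousAt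
    apply h1.eventually (gt_mem_nhds _)
    simp only [phi_zero, sub_self, norm_zero]
    norm_num
  obtain ⟨r, hr, hball⟩ := Metric.eventually_nhds_iff.mp hev
  -- the points outside the sheet
  let q : ℕ → (Fin (n + 1) → ℝ) := fun k i => if i = j0 then - (sg (x i) * (1 / ((k : ℝ) + 3))) else ctr x J i
  have hqn : ∀ k, ‖q k - ctr x J‖ ≤ 1 / ((k : ℝ) + 3) := by
    intro k
    have hpos : (0 : ℝ) < 1 / ((k : ℝ) + 3) := by positivity
    rw [pi_norm_le_iff_of_nonneg hpos.le]
    intro i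
    simp only [q, Pi.sub_apply]
    split_ifs with h
    · have h3 : ctr x J i = 0 := by rw [h]; simp [ctr, hj0]
      rw [h3, sub_zero, norm_neg, norm_mul]
      have : ‖sg (x i)‖ = 1 := by
        cases x i <;> simp [sg]
      rw [this, one_mul, Real.norm_eq_abs, abs_of_pos hpos]
    · rw [sub_self, norm_zero]; exact hpos.le
  have hq1 : ∀ k, su x (q k) j0 = - (1 / ((k : ℝ) + 3)) := by
    intro k
    simp only [su, q, if_true]
    rw [mul_neg, ← mul_assoc, sg_mul_self, one_mul]
  have hq2 : ∀ k, ∀ i ∈ J, i ≠ j0 → su x (q k) i = 0 := by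
    intro k i hi hij
    simp only [su, q, if_neg hij]
    simp [ctr, hi]
  refine core hn (frontier (UU S)) e (phi x J j0 hj0) (phi_continuous x J j0 hj0)
    (phi_injective x J j0 hj0) r hr ?_ q ?_ ?_ ?_
  · intro w hw
    obtain ⟨i, hi, hi0⟩ := su_phi_zero x J j0 hj0 w
    exact mem_frontier_pos S x J hJ c hA _ (hball (by rw [dist_zero_right]; exact hw))
      (fun i hi => su_phi_nonneg x J j0 hj0 w hi) hi hi0
  · intro k
    apply mem_frontier_neg S x J hJ c hA (q k)
    · refine lt_of_le_of_lt (hqn k) ?_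
      rw [div_lt_div_iff₀ (by positivity) (by norm_num)]
      have : (0 : ℝ) ≤ k := Nat.cast_nonneg k
      linarith
    · intro i hi
      by_cases hij : i = j0
      · rw [hij, hq1 k]
        have : (0 : ℝ) < 1 / ((k : ℝ) + 3) := by positivity
        linarith
      · rw [hq2 k i hi hij]
    · exact hj1
    · exact hq2 k j1 hj1 hne
  · intro k w hw
    have h1 := su_phi_nonneg x J j0 hj0 w hj0
    rw [hw, hq1 k] at h1
    have : (0 : ℝ) < 1 / ((k : ℝ) + 3) := by positivity
    linarith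
  · rw [phi_zero, tendsto_iff_norm_sub_tendsto_zero]
    apply squeeze_zero (fun k => norm_nonneg _) hqn
    have h1 : Filter.Tendsto (fun k : ℕ => 1 / ((k : ℝ) + 1)) Filter.atTop (𝓝 0) :=
      tendsto_one_div_add_atTop_nhds_zero_nat
    have h2 := h1.comp (Filter.tendsto_add_atTop_nat 2)
    refine h2.congr (fun k => ?_)
    simp only [Function.comp]
    push_cast
    ring_nf

end Pool.Agent.Lib.MP_8f7fef_co
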