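import Pool.Agent.Lib.MP_8f7fef_co.Sphere
import Pool.Agent.Lib.MP_8f7fef_co.Core

set_option autoImplicit false
set_option linter.unusedSectionVars false

open Metric Topology

namespace Pool.Agent.Lib.MP_8f7fef_co

variable {d : ℕ}

/-- the middle point of the face of the cube `x` in the directions outside `J` at the origin -/
noncomputable def ctr (x : Fin d → Bool) (J : Finset (Fin d)) : Fin d → ℝ :=
  fun i => if i ∈ J then 0 else sg (x i) / 2

theorem near_coord {x : Fin d → Bool} {J : Finset (Fin d)} {z : Fin d → ℝ}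
    (hz : ‖z - ctr x J‖ < 1 / 2) (i : Fin d) : |z i - ctr x J i| < 1 / 2 := by
  have := norm_le_pi_norm (z - ctr x J) i
  rw [Pi.sub_apply, Real.norm_eq_abs] at this
  linarith

/-- cubes near the centre of the face -/
theorem mem_UU_local (S : Finset (Fin d → ℤ)) (x : Fin d → Bool) (J : Finset (Fin d)) (z : Fin d → ℝ)
    (hz : ‖z - ctr x J‖ < 1 / 2) :
    z ∈ UU S ↔ ∃ K ⊆ J, cellOf (xr x K) ∈ S ∧ ∀ i ∈ J, 0 ≤ sg (xr x K i) * z i := by
  classical
  simp only [UU, Set.mem_iUnion, Set.mem_ofPred_eq, exists_prop]
  constructor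
  · rintro ⟨a, ha, hza⟩
    set K := J.filter (fun i => a i ≠ cellOf x i) with hK
    have hcell : a = cellOf (xr x K) := by
      funext i
      have h1 := near_coord hz i
      have h2 := hza i
      by_cases hi : i ∈ J
      · have h3 : ctr x J i = 0 := by simp [ctr, hi]
        rw [h3, sub_zero, abs_lt] at h1
        have h4 : (a i : ℝ) < 1 := by linarith
        have h5 : (-2 : ℝ) < a i := by linarith
        have h6 : a i < 1 := by exact_mod_cast h4
        have h7 : -2 < a i := by exact_mod_cast h5
        by_cases hai : a i = cellOf x i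
        · have : i ∉ K := by simp [hK, hai]
          simp only [cellOf, xr, this, if_false]
          exact hai
        · have : i ∈ K := by simp [hK, hai, hi]
          simp only [cellOf] at hai
          simp only [cellOf, xr, this, if_true]
          cases hx : x i <;> simp [hx] at hai ⊢ <;> omega
      · have h3 : ctr x J i = sg (x i) / 2 := by simp [ctr, hi]
        have hiK : i ∉ K := by simp [hK, hi]
        rw [h3, abs_lt] at h1
        simp only [cellOf, xr, hiK, if_false]
        cases hx : x i
        · simp only [hx, sg, Bool.false_eq_true, if_false] at h1 ⊢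
          have h4 : (a i : ℝ) < 0 := by linarith
          have h5 : (-2 : ℝ) < a i := by linarith
          have h6 : a i < 0 := by exact_mod_cast h4
          have h7 : -2 < a i := by exact_mod_cast h5
          omega
        · simp only [hx, sg, if_true] at h1 ⊢
          have h4 : (a i : ℝ) < 1 := by linarith
          have h5 : (-1 : ℝ) < a i := by linarith
          have h6 : a i < 1 := by exact_mod_cast h4
          have h7 : -1 < a i := by exact_mod_cast h5
          omega
    refine ⟨K, Finset.filter_subset _ _, by rw [← hcell]; exact ha, ?_⟩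
    intro i hi
    have h2 := hza i
    rw [hcell] at h2
    simp only [cellOf] at h2
    cases hx : xr x K i
    · simp only [hx, sg, Bool.false_eq_true, if_false] at h2 ⊢
      push_cast at h2
      linarith
    · simp only [hx, sg, if_true] at h2 ⊢
      push_cast at h2
      linarith
  · rintro ⟨K, hKJ, hKS, hKz⟩
    refine ⟨cellOf (xr x K), hKS, ?_⟩
    intro i
    have h1 := near_coord hz i
    by_cases hi : i ∈ J
    · have h3 : ctr x J i = 0 := by simp [ctr, hi]
      rw [h3, sub_zero, abs_lt] at h1
      have h4 := hKz i hi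
      simp only [cellOf]
      cases hx : xr x K i
      · simp only [hx, sg, Bool.false_eq_true, if_false] at h4 ⊢
        push_cast
        constructor <;> linarith
      · simp only [hx, sg, if_true] at h4 ⊢
        push_cast
        constructor <;> linarith
    · have h3 : ctr x J i = sg (x i) / 2 := by simp [ctr, hi]
      have hiK : i ∉ K := fun h => hi (hKJ h)
      rw [h3, abs_lt] at h1
      simp only [cellOf, xr, hiK, if_false]
      cases hx : x i
      · simp only [hx, sg, Bool.false_eq_true, if_false] at h1 ⊢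
        push_cast
        constructor <;> linarith
      · simp only [hx, sg, if_true] at h1 ⊢
        push_cast
        constructor <;> linarith

/-- antipodal pattern at the face in the directions `J` -/
def Antip (S : Finset (Fin d → ℤ)) (x : Fin d → Bool) (J : Finset (Fin d)) (c : Bool) : Prop :=
  ∀ K ⊆ J, (cellOf (xr x K) ∈ S ↔ ((K = ∅ ∨ K = J) ↔ c = true))

theorem sg_xr_of_mem (x : Fin d → Bool) (K : Finset (Fin d)) {i : Fin d} (hi : i ∈ K) :
    sg (xr x K i) = - sg (x i) := by
  simp only [xr, hi, if_true, sg_not]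

theorem sg_xr_of_notMem (x : Fin d → Bool) (K : Finset (Fin d)) {i : Fin d} (hi : i ∉ K) :
    sg (xr x K i) = sg (x i) := by
  simp only [xr, hi, if_false]

/-- local description for antipodal patterns -/
theorem mem_UU_antip_true (S : Finset (Fin d → ℤ)) (x : Fin d → Bool) (J : Finset (Fin d))
    (hA : Antip S x J true) (z : Fin d → ℝ) (hz : ‖z - ctr x J‖ < 1 / 2) :
    z ∈ UU S ↔ (∀ i ∈ J, 0 ≤ su x z i) ∨ (∀ i ∈ J, su x z i ≤ 0) := by
  rw [mem_UU_local S x J z hz]
  constructor
  · rintro ⟨K, hKJ, hKS, hKz⟩
    rcases ((hA K hKJ).mp hKS).mpr rfl with h | h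
    · left
      intro i hi
      have := hKz i hi
      rwa [sg_xr_of_notMem x K (by rw [h]; simp)] at this
    · right
      intro i hi
      have := hKz i hi
      rw [sg_xr_of_mem x K (by rw [h]; exact hi)] at this
      simp only [su]; linarith
  · rintro (h | h)
    · refine ⟨∅, by simp, (hA ∅ (by simp)).mpr (by simp), ?_⟩
      intro i hi
      rw [sg_xr_of_notMem x ∅ (by simp)]
      exact h i hi
    · refine ⟨J, Finset.Subset.refl _, (hA J (Finset.Subset.refl _)).mpr (by simp), ?_⟩
      intro i hi
      rw [sg_xr_of_mem x J hi]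
      have := h i hi
      simp only [su] at this
      linarith

theorem mem_UU_antip_false (S : Finset (Fin d → ℤ)) (x : Fin d → Bool) (J : Finset (Fin d)) (hJ : 2 ≤ J.card)
    (hA : Antip S x J false) (z : Fin d → ℝ) (hz : ‖z - ctr x J‖ < 1 / 2) :
    z ∈ UU S ↔ (∃ i ∈ J, su x z i ≤ 0) ∧ (∃ i ∈ J, 0 ≤ su x z i) := by
  rw [mem_UU_local S x J z hz]
  have hA' : ∀ K ⊆ J, (cellOf (xr x K) ∈ S ↔ ¬ (K = ∅ ∨ K = J)) := by
    intro K hK
    rw [hA K hK]
    simp
  constructor
  · rintro ⟨K, hKJ, hKS, hKz⟩
    have h1 := (hA' K hKJ).mp hKS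
    rw [not_or] at h1
    obtain ⟨i, hi⟩ := Finset.nonempty_iff_ne_empty.mpr h1.1
    obtain ⟨j, hj, hjK⟩ : ∃ j ∈ J, j ∉ K := by
      by_contra hcon
      push Not at hcon
      exact h1.2 (Finset.Subset.antisymm hKJ hcon)
    refine ⟨⟨i, hKJ hi, ?_⟩, ⟨j, hj, ?_⟩⟩
    · have := hKz i (hKJ hi)
      rw [sg_xr_of_mem x K hi] at this
      simp only [su]; linarith
    · have := hKz j hj
      rwa [sg_xr_of_notMem x K hjK] at this
  · rintro ⟨⟨i, hi, hiz⟩, ⟨j, hj, hjz⟩⟩
    by_cases hneg : ∃ k ∈ J, su x z k < 0
    · set K := J.filter (fun k => su x z k < 0) with hK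
      obtain ⟨k, hk, hkz⟩ := hneg
      refine ⟨K, Finset.filter_subset _ _, (hA' K (Finset.filter_subset _ _)).mpr ?_, ?_⟩
      · rw [not_or]
        constructor
        · intro h
          have : k ∈ K := by simp [hK, hk, hkz]
          rw [h] at this
          simp at this
        · intro h
          have : j ∈ K := by rw [h]; exact hj
          simp only [hK, Finset.mem_filter] at this
          linarith [this.2]
      · intro l hl
        by_cases hlK : l ∈ K
        · rw [sg_xr_of_mem x K hlK]
          have hlK' : su x z l < 0 := (Finset.mem_filter.mp hlK).2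
          simp only [su] at hlK'
          linarith
        · rw [sg_xr_of_notMem x K hlK]
          have hlK' : ¬ su x z l < 0 := fun h => hlK (Finset.mem_filter.mpr ⟨hl, h⟩)
          exact not_lt.mp hlK' 
    · push Not at hneg
      have hi0 : su x z i = 0 := le_antisymm hiz (hneg i hi)
      refine ⟨{i}, by simpa using hi, (hA' {i} (by simpa using hi)).mpr ?_, ?_⟩
      · rw [not_or]
        refine ⟨by simp, ?_⟩
        intro h
        rw [← h] at hJ
        simp at hJ
      · intro l hl
        by_cases hli : l = i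
        · subst hli
          rw [sg_xr_of_mem x {l} (by simp)]
          simp only [su] at hi0
          linarith
        · rw [sg_xr_of_notMem x {i} (by simpa using hli)]
          exact hneg l hl

/-- points with nonnegative `u`-coordinates, one of them zero, are in the frontier -/
theorem mem_frontier_pos (S : Finset (Fin d → ℤ)) (x : Fin d → Bool) (J : Finset (Fin d)) (hJ : 2 ≤ J.card)
    (c : Bool) (hA : Antip S x J c) (z : Fin d → ℝ) (hz : ‖z - ctr x J‖ < 1 / 2)
    (hpos : ∀ i ∈ J, 0 ≤ su x z i) {i0 : Fin d} (hi0 : i0 ∈ J) (hzero : su x z i0 = 0) :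
    z ∈ frontier (UU S) := by
  classical
  have hin : z ∈ UU S := by
    cases c
    · rw [mem_UU_antip_false S x J hJ hA z hz]
      exact ⟨⟨i0, hi0, hzero.le⟩, ⟨i0, hi0, hzero.ge⟩⟩
    · rw [mem_UU_antip_true S x J hA z hz]
      exact Or.inl hpos
  refine ⟨subset_closure hin, ?_⟩
  intro hint
  rw [mem_interior_iff_mem_nhds] at hint
  obtain ⟨ε, hε, hball⟩ := Metric.mem_nhds_iff.mp hint
  -- second index
  obtain ⟨i1, hi1, hne⟩ : ∃ i1 ∈ J, i1 ≠ i0 := by
    by_contra hcon
    push Not at hcon
    have : J ⊆ {i0} := by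
      intro k hk; simpa using hcon k hk
    have := Finset.card_le_card this
    simp at this
    omega
  set δ := min ε (1 / 2 - ‖z - ctr x J‖) / 2 with hδ
  have hδ0 : 0 < δ := by
    have : 0 < min ε (1 / 2 - ‖z - ctr x J‖) := lt_min hε (by linarith)
    positivity
  have hδε : δ < ε := by
    have h1 := min_le_left ε (1 / 2 - ‖z - ctr x J‖)
    have : 0 < min ε (1 / 2 - ‖z - ctr x J‖) := lt_min hε (by linarith)
    linarith
  have hδz : δ < 1 / 2 - ‖z - ctr x J‖ := by
    have h1 := min_le_right ε (1 / 2 - ‖z - ctr x J‖)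
    have : 0 < min ε (1 / 2 - ‖z - ctr x J‖) := lt_min hε (by linarith)
    linarith
  -- perturbation by a vector with entries bounded by `δ`
  have pert : ∀ v : Fin d → ℝ, (∀ i, |v i| ≤ δ) → z + v ∈ UU S ∧ ‖z + v - ctr x J‖ < 1 / 2 := by
    intro v hv
    have hv' : ‖v‖ ≤ δ := by
      rw [pi_norm_le_iff_of_nonneg hδ0.le]
      intro i; rw [Real.norm_eq_abs]; exact hv i
    constructor
    · apply hball
      rw [mem_ball, dist_eq_norm, add_sub_cancel_left]
      linarith
    · have h1 : z + v - ctr x J = (z - ctr x J) + v := by abel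
      rw [h1]
      have := norm_add_le (z - ctr x J) v
      linarith
  have sgabs : ∀ b : Bool, |sg b| = 1 := by intro b; cases b <;> simp [sg]
  cases c
  · -- all coordinates increased: not in the union
    obtain ⟨h1, h2⟩ := pert (fun i => sg (x i) * δ) (by
      intro i
      rw [abs_mul, sgabs, one_mul, abs_of_pos hδ0])
    rw [mem_UU_antip_false S x J hJ hA _ h2] at h1
    obtain ⟨⟨i, hi, hiz⟩, -⟩ := h1
    have h3 : su x (z + fun i => sg (x i) * δ) i = su x z i + δ := by
      simp only [su, Pi.add_apply, mul_add]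
      rw [← mul_assoc (sg (x i)) (sg (x i)), sg_mul_self, one_mul]
    rw [h3] at hiz
    have := hpos i hi
    linarith
  · obtain ⟨h1, h2⟩ := pert (fun i => if i = i0 then -(sg (x i) * δ) else if i = i1 then sg (x i) * δ else 0) (by
      intro i
      split_ifs
      · rw [abs_neg, abs_mul, sgabs, one_mul, abs_of_pos hδ0]
      · rw [abs_mul, sgabs, one_mul, abs_of_pos hδ0]
      · simp [hδ0.le])
    rw [mem_UU_antip_true S x J hA _ h2] at h1
    have h3 : su x (z + fun i => if i = i0 then -(sg (x i) * δ) else if i = i1 then sg (x i) * δ else 0) i0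
        = - δ := by
      have e1 : su x (z + fun i => if i = i0 then -(sg (x i) * δ) else if i = i1 then sg (x i) * δ else 0) i0
        = su x z i0 - sg (x i0) * sg (x i0) * δ := by
        simp only [su, Pi.add_apply, if_true]; ring
      rw [e1, hzero, sg_mul_self]; ring
    have h4 : su x (z + fun i => if i = i0 then -(sg (x i) * δ) else if i = i1 then sg (x i) * δ else 0) i1
        = su x z i1 + δ := by
      have e1 : su x (z + fun i => if i = i0 then -(sg (x i) * δ) else if i = i1 then sg (x i) * δ else 0) i1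
        = su x z i1 + sg (x i1) * sg (x i1) * δ := by
        simp only [su, Pi.add_apply, if_neg hne, if_true]; ring
      rw [e1, sg_mul_self]; ring
    rcases h1 with h1 | h1
    · have := h1 i0 hi0
      rw [h3] at this
      linarith
    · have h5 := h1 i1 hi1
      rw [h4] at h5
      have := hpos i1 hi1
      linarith

theorem xr_xr (x : Fin d → Bool) (J K : Finset (Fin d)) (hK : K ⊆ J) :
    xr (xr x J) K = xr x (J \ K) := by
  funext i
  simp only [xr, Finset.mem_sdiff]
  by_cases h1 : i ∈ K
  · simp [h1, hK h1]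
  · by_cases h2 : i ∈ J <;> simp [h1, h2]

theorem Antip.swap {S : Finset (Fin d → ℤ)} {x : Fin d → Bool} {J : Finset (Fin d)} {c : Bool}
    (hA : Antip S x J c) : Antip S (xr x J) J c := by
  intro K hK
  rw [xr_xr x J K hK, hA (J \ K) Finset.sdiff_subset]
  have h1 : (J \ K = ∅) ↔ K = J := by
    rw [Finset.sdiff_eq_empty_iff_subset]
    exact ⟨fun h => Finset.Subset.antisymm hK h, fun h => by rw [h]⟩
  have h2 : (J \ K = J) ↔ K = ∅ := by
    constructor
    · intro h
      apply Finset.eq_empty_of_forall_notMem
      intro i hi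
      have h3 : i ∈ J \ K := by rw [h]; exact hK hi
      exact (Finset.mem_sdiff.mp h3).2 hi
    · rintro rfl; simp
  rw [h1, h2, or_comm]

theorem ctr_xr (x : Fin d → Bool) (J : Finset (Fin d)) : ctr (xr x J) J = ctr x J := by
  funext i
  by_cases hi : i ∈ J <;> simp [ctr, xr, hi]

theorem mem_frontier_neg (S : Finset (Fin d → ℤ)) (x : Fin d → Bool) (J : Finset (Fin d)) (hJ : 2 ≤ J.card)
    (c : Bool) (hA : Antip S x J c) (z : Fin d → ℝ) (hz : ‖z - ctr x J‖ < 1 / 2)
    (hneg : ∀ i ∈ J, su x z i ≤ 0) {i0 : Fin d} (hi0 : i0 ∈ J) (hzero : su x z i0 = 0) :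
    z ∈ frontier (UU S) := by
  have hs : ∀ i ∈ J, su (xr x J) z i = - su x z i := by
    intro i hi
    simp only [su, sg_xr_of_mem x J hi]; ring
  apply mem_frontier_pos S (xr x J) J hJ c hA.swap z (by rw [ctr_xr]; exact hz)
  · intro i hi
    rw [hs i hi]
    have := hneg i hi
    linarith
  · exact hi0
  · rw [hs i0 hi0, hzero, neg_zero]

end Pool.Agent.Lib.MP_8f7fef_co
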