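import Pool.Agent.Lib.MP_8f7fef_co.Comp

set_option autoImplicit false
set_option linter.unusedSectionVars false

open Metric Topology

namespace Pool.Agent.Lib.MP_8f7fef_co

variable {d : ℕ}

/-- union of the cubes of a configuration -/
def UU (S : Finset (Fin d → ℤ)) : Set (Fin d → ℝ) :=
  ⋃ x ∈ S, {y : Fin d → ℝ | ∀ i : Fin d, ((x i : ℤ) : ℝ) ≤ y i ∧ y i ≤ ((x i : ℤ) : ℝ) + 1}

/-- animals -/
def PP (S : Finset (Fin d → ℤ)) : Prop :=
  Nonempty (↥(frontier (UU S)) ≃ₜ ↥(Metric.sphere (0 : EuclideanSpace ℝ (Fin d)) 1))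

/-- the cube of a sign vector -/
def cellOf (x : Fin d → Bool) : Fin d → ℤ := fun i => if x i then 0 else -1

theorem cellOf_injective : Function.Injective (cellOf : (Fin d → Bool) → (Fin d → ℤ)) := by
  intro x y h
  funext i
  have := congrFun h i
  simp only [cellOf] at this
  cases hx : x i <;> cases hy : y i <;> simp_all

/-- the cubes around the origin coloured true -/
def starSet (f : (Fin d → Bool) → Bool) : Finset (Fin d → ℤ) :=
  (Finset.univ.filter (fun x => f x = true)).image cellOf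

theorem UU_starSet (f : (Fin d → Bool) → Bool) :
    UU (starSet f) = U f true ∩ {z | ‖z‖ ≤ 1} := by
  ext z
  simp only [UU, starSet, Set.mem_iUnion, Set.mem_inter_iff, Finset.mem_image, Finset.mem_filter,
    Finset.mem_univ, true_and, Set.mem_ofPred_eq, exists_prop]
  rw [pi_norm_le_iff_of_nonneg zero_le_one]
  constructor
  · rintro ⟨a, ⟨x, hx, rfl⟩, hz⟩
    refine ⟨⟨x, hx, fun i => ?_⟩, fun i => ?_⟩
    · have := hz i
      simp only [cellOf] at this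
      cases h : x i <;> simp [h, sg] at this ⊢ <;> linarith
    · have := hz i
      simp only [cellOf] at this
      rw [Real.norm_eq_abs, abs_le]
      cases h : x i <;> simp [h] at this <;> constructor <;> linarith
  · rintro ⟨⟨x, hx, hz⟩, hn⟩
    refine ⟨cellOf x, ⟨x, hx, rfl⟩, fun i => ?_⟩
    have h1 := hz i
    have h2 := hn i
    rw [Real.norm_eq_abs, abs_le] at h2
    simp only [cellOf]
    cases h : x i <;> simp [h, sg] at h1 ⊢ <;> constructor <;> linarith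

section Normalise
variable {V : Type*} [NormedAddCommGroup V] [NormedSpace ℝ V]

/-- rescale a homogeneous homeomorphism to preserve the norm -/
noncomputable def nrm (Ψ : V ≃ₜ V) (z : V) : V := (‖z‖ / ‖Ψ z‖) • Ψ z

theorem hom_zero (Ψ : V ≃ₜ V) (hΨ : ∀ t : ℝ, 0 < t → ∀ z, Ψ (t • z) = t • Ψ z) : Ψ 0 = 0 := by
  have h := hΨ 2 (by norm_num) 0
  rw [smul_zero] at h
  have h2 : (1 : ℝ) • Ψ 0 = (2 : ℝ) • Ψ 0 := by rw [one_smul]; exact h
  have h3 : ((2 : ℝ) - 1) • Ψ 0 = 0 := by rw [sub_smul, ← h2, sub_self]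
  have h4 : ((2 : ℝ) - 1) = 1 := by norm_num
  rw [h4, one_smul] at h3
  exact h3

theorem hom_ne (Ψ : V ≃ₜ V) (hΨ : ∀ t : ℝ, 0 < t → ∀ z, Ψ (t • z) = t • Ψ z) {z : V} (hz : z ≠ 0) :
    Ψ z ≠ 0 := by
  intro h
  apply hz
  apply Ψ.injective
  rw [h, hom_zero Ψ hΨ]

theorem norm_nrm (Ψ : V ≃ₜ V) (hΨ : ∀ t : ℝ, 0 < t → ∀ z, Ψ (t • z) = t • Ψ z) (z : V) :
    ‖nrm Ψ z‖ = ‖z‖ := by
  by_cases hz : z = 0
  · subst hz; simp [nrm]
  · have h1 : ‖Ψ z‖ ≠ 0 := norm_ne_zero_iff.mpr (hom_ne Ψ hΨ hz)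
    unfold nrm
    rw [norm_smul, norm_div, norm_norm, norm_norm, div_mul_cancel₀ _ h1]

theorem nrm_continuous (Ψ : V ≃ₜ V) (hΨ : ∀ t : ℝ, 0 < t → ∀ z, Ψ (t • z) = t • Ψ z) :
    Continuous (nrm Ψ) := by
  rw [continuous_iff_continuousAt]
  intro z
  by_cases hz : z = 0
  · subst hz
    have h0 : nrm Ψ 0 = 0 := by simp [nrm]
    unfold ContinuousAt
    rw [h0, tendsto_zero_iff_norm_tendsto_zero]
    simp only [norm_nrm Ψ hΨ]
    have : Filter.Tendsto (fun z : V => ‖z‖) (𝓝 0) (𝓝 ‖(0 : V)‖) := continuous_norm.continuousAt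
    rwa [norm_zero] at this
  · have h1 : ‖Ψ z‖ ≠ 0 := norm_ne_zero_iff.mpr (hom_ne Ψ hΨ hz)
    unfold nrm
    apply ContinuousAt.smul _ Ψ.continuous.continuousAt
    exact continuous_norm.continuousAt.div Ψ.continuous.norm.continuousAt h1

theorem symm_hom (Ψ : V ≃ₜ V) (hΨ : ∀ t : ℝ, 0 < t → ∀ z, Ψ (t • z) = t • Ψ z) :
    ∀ t : ℝ, 0 < t → ∀ z, Ψ.symm (t • z) = t • Ψ.symm z := by
  intro t ht z
  apply Ψ.injective
  rw [hΨ t ht, Homeomorph.apply_symm_apply, Homeomorph.apply_symm_apply]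

theorem nrm_nrm (Ψ : V ≃ₜ V) (hΨ : ∀ t : ℝ, 0 < t → ∀ z, Ψ (t • z) = t • Ψ z) (z : V) :
    nrm Ψ.symm (nrm Ψ z) = z := by
  by_cases hz : z = 0
  · subst hz
    simp [nrm]
  · have h1 : 0 < ‖Ψ z‖ := norm_pos_iff.mpr (hom_ne Ψ hΨ hz)
    have h2 : 0 < ‖z‖ := norm_pos_iff.mpr hz
    have hc : 0 < ‖z‖ / ‖Ψ z‖ := by positivity
    have h3 : Ψ.symm (nrm Ψ z) = (‖z‖ / ‖Ψ z‖) • z := by
      unfold nrm
      rw [symm_hom Ψ hΨ _ hc, Homeomorph.symm_apply_apply]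
    have h4 : nrm Ψ.symm (nrm Ψ z) = (‖nrm Ψ z‖ / ‖Ψ.symm (nrm Ψ z)‖) • Ψ.symm (nrm Ψ z) := rfl
    rw [h4, h3, norm_nrm Ψ hΨ, norm_smul, Real.norm_eq_abs, abs_of_pos hc, smul_smul]
    have h5 : ‖z‖ / (‖z‖ / ‖Ψ z‖ * ‖z‖) * (‖z‖ / ‖Ψ z‖) = 1 := by
      field_simp
    rw [h5, one_smul]

/-- norm preserving version of a homogeneous homeomorphism -/
noncomputable def nrmHomeo (Ψ : V ≃ₜ V) (hΨ : ∀ t : ℝ, 0 < t → ∀ z, Ψ (t • z) = t • Ψ z) : V ≃ₜ V where
  toFun := nrm Ψ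
  invFun := nrm Ψ.symm
  left_inv := nrm_nrm Ψ hΨ
  right_inv z := by
    have := nrm_nrm Ψ.symm (symm_hom Ψ hΨ) z
    exact this
  continuous_toFun := nrm_continuous Ψ hΨ
  continuous_invFun := nrm_continuous Ψ.symm (symm_hom Ψ hΨ)

end Normalise

/-- half of the cube -/
def HC (i0 : Fin d) : Set (Fin d → ℝ) := {w | 0 ≤ w i0 ∧ ‖w‖ ≤ 1}

theorem HC_sphere (i0 : Fin d) :
    Nonempty (↥(frontier (HC i0)) ≃ₜ ↥(Metric.sphere (0 : EuclideanSpace ℝ (Fin d)) 1)) := by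
  let L : (Fin d → ℝ) ≃L[ℝ] EuclideanSpace ℝ (Fin d) := (EuclideanSpace.equiv (Fin d) ℝ).symm
  have hconv : Convex ℝ (HC i0) := by
    have h1 : HC i0 = {w : Fin d → ℝ | 0 ≤ w i0} ∩ closedBall 0 1 := by
      ext w; simp [HC]
    rw [h1]
    apply Convex.inter _ (convex_closedBall _ _)
    exact convex_halfSpace_ge (f := fun w : Fin d → ℝ => w i0) ⟨fun _ _ => rfl, fun _ _ => rfl⟩ 0
  have hint : (interior (HC i0)).Nonempty := by
    refine ⟨fun _ => 1 / 2, ?_⟩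
    rw [mem_interior]
    refine ⟨{w | 0 < w i0} ∩ {w | ‖w‖ < 1}, ?_, ?_, ?_⟩
    · rintro w ⟨h1, h2⟩
      exact ⟨le_of_lt h1, le_of_lt h2⟩
    · exact (isOpen_lt continuous_const (continuous_apply i0)).inter
        (isOpen_lt continuous_norm continuous_const)
    · constructor
      · show (0 : ℝ) < 1 / 2
        norm_num
      · show ‖(fun _ => 1 / 2 : Fin d → ℝ)‖ < 1
        rw [pi_norm_lt_iff one_pos]
        intro i
        norm_num
  have hbd : Bornology.IsBounded (HC i0) := by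
    apply Bornology.IsBounded.subset (isBounded_closedBall (x := (0 : Fin d → ℝ)) (r := 1))
    intro w hw
    simpa using hw.2
  have hconv' : Convex ℝ (L '' HC i0) := hconv.linear_image L.toLinearMap
  have hint' : (interior (L '' HC i0)).Nonempty := by
    have h1 := L.toHomeomorph.image_interior (HC i0)
    have h2 : interior (L '' HC i0) = L '' interior (HC i0) := h1.symm
    rw [h2]
    exact hint.image _
  have hbd' : Bornology.IsBounded (L '' HC i0) := L.toContinuousLinearMap.lipschitz.isBounded_image hbd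
  obtain ⟨h, -, -, hfr⟩ := exists_homeomorph_image_interior_closure_frontier_eq_unitBall hconv' hint' hbd'
  have h3 : L '' frontier (HC i0) = frontier (L '' HC i0) := L.toHomeomorph.image_frontier (HC i0)
  have e1 : ↥(frontier (HC i0)) ≃ₜ ↥(L '' frontier (HC i0)) := L.toHomeomorph.image _
  have e2 : ↥(L '' frontier (HC i0)) ≃ₜ ↥(frontier (L '' HC i0)) := Homeomorph.setCongr h3
  have e3 : ↥(frontier (L '' HC i0)) ≃ₜ ↥(h '' frontier (L '' HC i0)) := h.image _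
  have e4 := Homeomorph.setCongr hfr
  exact ⟨e1.trans (e2.trans (e3.trans e4))⟩

/-- **A good star pattern is an animal.** -/
theorem PP_of_good (f : (Fin d → Bool) → Bool) (hf : Good f) : PP (starSet f) := by
  obtain ⟨Ψ, i0, hh, hU⟩ := hf
  let Φ := nrmHomeo Ψ hh
  have h1 : UU (starSet f) = Φ ⁻¹' (HC i0) := by
    rw [UU_starSet]
    ext z
    simp only [Set.mem_inter_iff, Set.mem_ofPred_eq, Set.mem_preimage, HC]
    have hn : ‖Φ z‖ = ‖z‖ := norm_nrm Ψ hh z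
    rw [hn, (hU z).1]
    refine and_congr_left fun _ => ?_
    show 0 ≤ Ψ z i0 ↔ 0 ≤ ((‖z‖ / ‖Ψ z‖) • Ψ z) i0
    by_cases hz : z = 0
    · subst hz
      simp [hom_zero Ψ hh]
    · have g1 : 0 < ‖Ψ z‖ := norm_pos_iff.mpr (hom_ne Ψ hh hz)
      have g2 : 0 < ‖z‖ := norm_pos_iff.mpr hz
      have hc : 0 < ‖z‖ / ‖Ψ z‖ := by positivity
      simp only [Pi.smul_apply, smul_eq_mul]
      exact (mul_nonneg_iff_of_pos_left hc).symm
  have h2 : frontier (UU (starSet f)) = Φ ⁻¹' (frontier (HC i0)) := by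
    rw [h1, Φ.preimage_frontier]
  have h3 : Φ '' frontier (UU (starSet f)) = frontier (HC i0) := by
    rw [h2, Set.image_preimage_eq _ Φ.surjective]
  obtain ⟨e⟩ := HC_sphere i0
  exact ⟨(Φ.image _).trans ((Homeomorph.setCongr h3).trans e)⟩

end Pool.Agent.Lib.MP_8f7fef_co
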